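import Pool.Agent.L5helper32.OA.Parts

/-!
The asymptotic form of the bound for programs.
-/

set_option autoImplicit false

namespace Pool.Agent.L5helper32.OA

open Finset Filter

theorem part3 {p : ℕ} (hp : p.Prime) (d c : ℕ) :
    ∃ (δ : ℝ) (n₀ : ℕ), 0 < δ ∧ ∀ n : ℕ, n₀ ≤ n → ∀ (M : Type) [Monoid M] [Fintype M]
      (P : Program n M) (k : ℕ) (C : Circ p n (P.Free k)),
      (Fintype.card M : ℝ) ≤ Real.log n ^ c → (k : ℝ) ≤ Real.log n ^ c →
      (P.len : ℝ) ≤ δ * (n * Real.log n / Real.log (Real.log n)) →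
      ¬ C.ComputesMaj d ((n : ℝ) ^ c) := by
  set K : ℕ := (c + 2) * (4 * d + 4) + c + 4 with hK
  have hK1 : (1 : ℝ) ≤ K := by
    have : 1 ≤ K := by omega
    exact_mod_cast this
  have hlogn : Tendsto (fun n : ℕ => Real.log n) atTop atTop :=
    Real.tendsto_log_atTop.comp tendsto_natCast_atTop_atTop
  have hev1 : ∀ᶠ x : ℝ in atTop, (K : ℝ) * Real.log x ≤ x / 2 := by
    have h1 := Real.isLittleO_log_id_atTop.def (c := 1 / (2 * (K : ℝ))) (by positivity)
    filter_upwards [h1, eventually_ge_atTop (1 : ℝ)] with x hx hx1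
    rw [id, Real.norm_of_nonneg (Real.log_nonneg hx1), Real.norm_of_nonneg (by linarith)] at hx
    calc (K : ℝ) * Real.log x ≤ K * (1 / (2 * (K : ℝ)) * x) :=
          mul_le_mul_of_nonneg_left hx (by positivity)
      _ = x / 2 := by field_simp
  have hev2 : ∀ᶠ x : ℝ in atTop, (K : ℝ) * Real.log x ≤ x / 2 ∧
      25000 * (4 * p : ℝ) ^ (4 * d) ≤ x ∧ 2 * (c : ℝ) ≤ x ∧ Real.exp 1 ≤ x ∧ 3 ≤ x := by
    filter_upwards [hev1, eventually_ge_atTop (25000 * (4 * p : ℝ) ^ (4 * d)),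
      eventually_ge_atTop (2 * (c : ℝ)), eventually_ge_atTop (Real.exp 1),
      eventually_ge_atTop (3 : ℝ)] with x h1 h2 h3 h4 h5
    exact ⟨h1, h2, h3, h4, h5⟩
  obtain ⟨n₁, hn₁⟩ := eventually_atTop.1 (hlogn.eventually hev2)
  refine ⟨1 / (4 * K), max n₁ 2, by positivity, ?_⟩
  intro n hn M _ _ P k C hM hk hlen hC
  obtain ⟨hx1, hx2, hx3, hx4, hx5⟩ := hn₁ n (le_trans (le_max_left _ _) hn)
  have hn2 : 2 ≤ n := le_trans (le_max_right _ _) hn
  have hn0 : (0 : ℝ) < n := by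
    have : 0 < n := by omega
    exact_mod_cast this
  set x : ℝ := Real.log n with hx
  set y : ℝ := Real.log x with hy
  have hx0 : 0 < x := by linarith
  have hy1 : 1 ≤ y := by
    rw [hy, Real.le_log_iff_exp_le hx0]
    exact hx4
  set r : ℕ := ⌊2 * (1 / (4 * K)) * x / y⌋₊ + 1 with hr
  have hr0 : 0 ≤ 2 * (1 / (4 * (K : ℝ))) * x / y := by positivity
  have hrle : (r : ℝ) ≤ 2 * (1 / (4 * K)) * x / y + 1 := by
    rw [hr]
    push_cast
    have := Nat.floor_le hr0
    linarith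
  have hrge : 2 * (1 / (4 * K)) * x / y ≤ r := by
    rw [hr]
    push_cast
    exact (Nat.lt_floor_add_one _).le
  have hrx : (r : ℝ) ≤ x := by
    have h1 : 2 * (1 / (4 * (K : ℝ))) * x / y ≤ x / 2 := by
      rw [div_le_iff₀ (by linarith)]
      have h2 : 2 * (1 / (4 * (K : ℝ))) ≤ 1 / 2 := by
        rw [mul_one_div, div_le_div_iff₀ (by positivity) (by norm_num)]
        linarith
      calc 2 * (1 / (4 * (K : ℝ))) * x ≤ 1 / 2 * x := mul_le_mul_of_nonneg_right h2 hx0.le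
        _ = x / 2 * 1 := by ring
        _ ≤ x / 2 * y := mul_le_mul_of_nonneg_left hy1 (by positivity)
    linarith
  have hreads : 2 * P.len ≤ r * n := by
    have h1 : 2 * (P.len : ℝ) ≤ r * n := by
      calc 2 * (P.len : ℝ) ≤ 2 * (1 / (4 * K) * (n * x / y)) :=
            mul_le_mul_of_nonneg_left hlen (by norm_num)
        _ = (2 * (1 / (4 * K)) * x / y) * n := by ring
        _ ≤ r * n := mul_le_mul_of_nonneg_right hrge hn0.le
    exact_mod_cast h1
  have hx1' : 1 ≤ x := by linarith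
  have hs1 : 1 ≤ x ^ (c + 2) := one_le_pow₀ hx1'
  have hks : (k : ℝ) ≤ x ^ (c + 2) := hk.trans (pow_le_pow_right₀ hx1' (by omega))
  have hC' : C.ComputesMaj d (2 ^ (x ^ (c + 2))) := by
    obtain ⟨h1, h2, h3⟩ := hC
    refine ⟨h1, h2.trans ?_, h3⟩
    have h4 : (n : ℝ) ^ c = Real.exp (c * x) := by
      rw [mul_comm, Real.exp_mul, hx, Real.exp_log hn0, Real.rpow_natCast]
    have h5 : (2 : ℝ) ^ (x ^ (c + 2)) = Real.exp (Real.log 2 * x ^ (c + 2)) := by
      rw [Real.exp_mul, Real.exp_log (by norm_num)]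
    rw [h4, h5, Real.exp_le_exp]
    have h6 : 1 / 2 ≤ Real.log 2 := by
      have := Real.log_two_gt_d9
      linarith
    have h7 : x * x ≤ x ^ (c + 2) := by
      calc x * x = x ^ 2 := by ring
        _ ≤ x ^ (c + 2) := pow_le_pow_right₀ hx1' (by omega)
    calc (c : ℝ) * x ≤ (1 / 2 * x) * x := mul_le_mul_of_nonneg_right (by linarith) hx0.le
      _ = 1 / 2 * (x * x) := by ring
      _ ≤ 1 / 2 * x ^ (c + 2) := mul_le_mul_of_nonneg_left h7 (by norm_num)
      _ ≤ Real.log 2 * x ^ (c + 2) := mul_le_mul_of_nonneg_right h6 (by linarith)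
  have hfin := part2 hp hn2 hs1 hks (by omega : 1 ≤ r) P (Or.inr hreads) C hC'
  -- the base is at most `x ^ K`
  have hbase : 25000 * (r : ℝ) ^ 2 * Fintype.card M *
      ((4 * p) ^ (4 * d) * (x ^ (c + 2)) ^ (4 * d + 4)) * x ≤ x ^ K := by
    have h1 : (r : ℝ) ^ 2 ≤ x ^ 2 := pow_le_pow_left₀ (by positivity) hrx 2
    calc 25000 * (r : ℝ) ^ 2 * Fintype.card M *
          ((4 * p) ^ (4 * d) * (x ^ (c + 2)) ^ (4 * d + 4)) * x
        = (25000 * (4 * p) ^ (4 * d)) * ((r : ℝ) ^ 2 * Fintype.card M) *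
            ((x ^ (c + 2)) ^ (4 * d + 4) * x) := by ring
      _ ≤ x * (x ^ 2 * x ^ c) * ((x ^ (c + 2)) ^ (4 * d + 4) * x) := by
          refine mul_le_mul_of_nonneg_right ?_ (by positivity)
          refine mul_le_mul hx2 ?_ (by positivity) (by positivity)
          exact mul_le_mul h1 hM (by positivity) (by positivity)
      _ = x ^ K := by
          rw [hK, ← pow_mul]
          ring
  have hexp : Real.exp x = n := by rw [hx, Real.exp_log hn0]
  have hpow : (x ^ K) ^ r ≤ n := by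
    have h1 : (x ^ K) ^ r = Real.exp (y * (K * r)) := by
      rw [← pow_mul, Real.exp_mul, hy, Real.exp_log hx0, ← Nat.cast_mul, Real.rpow_natCast]
    rw [h1, ← hexp, Real.exp_le_exp]
    have h2 : y * (K * (r : ℝ)) ≤ y * (K * (2 * (1 / (4 * K)) * x / y + 1)) := by
      refine mul_le_mul_of_nonneg_left ?_ (by linarith)
      exact mul_le_mul_of_nonneg_left hrle (by linarith)
    have hy0 : y ≠ 0 := by positivity
    have hK0 : (K : ℝ) ≠ 0 := by positivity
    have h3 : y * (K * (2 * (1 / (4 * K)) * x / y + 1)) = x / 2 + K * y := by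
      field_simp
      ring
    linarith
  have h1 := pow_le_pow_left₀ (by positivity) hbase r
  linarith

end Pool.Agent.L5helper32.OA
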