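import Mathlib

/-!
Circuits over the snapshots of an automaton and over the factors of a program over a monoid.
-/

set_option autoImplicit false

namespace Pool.Agent.L5helper32.OA

open Finset

/-- The number of ones of `x`. -/
def ones {n : ℕ} (x : Fin n → Bool) : ℕ := (univ.filter fun i => x i = true).card

/-- A circuit on `n` bits with the nodes `0, …, N - 1`; `val i` is the Boolean function computed at
the node `i`. A node is either an input node, which computes a function from the class `Free`, or
the negation of an earlier node, or a `MOD p` gate (which tests whether the number of true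
inputs is congruent to `r` modulo `p`), or an AND gate or an OR gate. The fan-in is unbounded. The
function `depth` grows along every wire into a `MOD p`, AND or OR gate. -/
structure Circ (p n : ℕ) (Free : ((Fin n → Bool) → Bool) → Prop) where
  /-- the number of nodes -/
  N : ℕ
  /-- the functions computed at the nodes -/
  val : Fin N → (Fin n → Bool) → Bool
  /-- the depth of the nodes -/
  depth : Fin N → ℕ
  /-- the AND gates and the OR gates -/
  andOr : Finset (Fin N)
  /-- every node is of one of the allowed kinds -/
  rule : ∀ i : Fin N,
    (i ∉ andOr ∧ Free (val i)) ∨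
    (i ∉ andOr ∧ ∃ j : Fin N, j < i ∧ depth j ≤ depth i ∧ ∀ x, val i x = !val j x) ∨
    (i ∉ andOr ∧ ∃ (J : Finset (Fin N)) (r : ZMod p), (∀ j ∈ J, j < i ∧ depth j < depth i) ∧
      ∀ x, val i x = decide (((J.filter fun j => val j x = true).card : ZMod p) = r)) ∨
    (i ∈ andOr ∧ ∃ J : Finset (Fin N), (∀ j ∈ J, j < i ∧ depth j < depth i) ∧
      ((∀ x, val i x = decide (∀ j ∈ J, val j x = true)) ∨
        ∀ x, val i x = decide (∃ j ∈ J, val j x = true)))

/-- The circuit has depth at most `d` and at most `S` AND and OR gates, and one of its nodes
computes MAJORITY: it is true if and only if at least `n / 2` of the bits are ones. -/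
def Circ.ComputesMaj {p n : ℕ} {Free : ((Fin n → Bool) → Bool) → Prop} (C : Circ p n Free)
    (d : ℕ) (S : ℝ) : Prop :=
  (∀ i, C.depth i ≤ d) ∧ (C.andOr.card : ℝ) ≤ S ∧ ∃ i, ∀ x, C.val i x = true ↔ n ≤ 2 * ones x

/-- A (nonuniform) automaton with the set `Q` of states, which reads the `n` bits one after the
other, in the order `ord`. -/
structure Automaton (n : ℕ) (Q : Type) where
  /-- the order in which the bits are read -/
  ord : Equiv.Perm (Fin n)
  /-- the initial state -/
  start : Q
  /-- the transitions, which may depend on the time -/
  step : Fin n → Bool → Q → Q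

/-- The state of the automaton after `t` steps on the input `x`. -/
def Automaton.state {n : ℕ} {Q : Type} (A : Automaton n Q) (x : Fin n → Bool) : ℕ → Q
  | 0 => A.start
  | t + 1 => if h : t < n then A.step ⟨t, h⟩ (x (A.ord ⟨t, h⟩)) (A.state x t) else A.state x t

/-- `f` is an arbitrary function of at most `k` snapshots of the automaton. The snapshot at the time
`t` consists of the state after `t` steps and the bit which is read next. -/
def Automaton.Free {n : ℕ} {Q : Type} (A : Automaton n Q) (k : ℕ) (f : (Fin n → Bool) → Bool) :
    Prop :=
  ∃ T : Finset ℕ, T.card ≤ k ∧ ∀ x y : Fin n → Bool,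
    (∀ t ∈ T, A.state x t = A.state y t ∧
      ∀ h : t < n, x (A.ord ⟨t, h⟩) = y (A.ord ⟨t, h⟩)) → f x = f y

/-- A program of length `len` over `M` on `n` bits: the instruction `t < len` reads the bit
`var t` and turns it into an element of `M`. -/
structure Program (n : ℕ) (M : Type) where
  /-- the number of instructions -/
  len : ℕ
  /-- the bits which are read -/
  var : ℕ → Fin n
  /-- the elements of `M` -/
  letter : ℕ → Bool → M

variable {n : ℕ} {M : Type}

/-- The product of the elements of `M` given by the instructions `a, a + 1, …, b - 1`. -/
def Program.factor [Monoid M] (P : Program n M) (x : Fin n → Bool) (a b : ℕ) : M :=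
  ((List.range' a (b - a)).map fun t => P.letter t (x (P.var t))).prod

/-- How often the program reads the bit `i`. -/
def Program.reads (P : Program n M) (i : Fin n) : ℕ :=
  ((range P.len).filter fun t => P.var t = i).card

/-- `f` is an arbitrary function of the factors of the program between `0`, `len` and at most `k`
instructions, and of the bits read by these instructions. -/
def Program.Free [Monoid M] (P : Program n M) (k : ℕ) (f : (Fin n → Bool) → Bool) : Prop :=
  ∃ T : Finset ℕ, T ⊆ range P.len ∧ T.card ≤ k ∧ ∀ x y : Fin n → Bool,
    (∀ a ∈ insert 0 (insert P.len T), ∀ b ∈ insert 0 (insert P.len T),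
      P.factor x a b = P.factor y a b) → (∀ t ∈ T, x (P.var t) = y (P.var t)) → f x = f y

end Pool.Agent.L5helper32.OA
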