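import Pool.Agent.W856.CornerDefs

/-!
Functions of few coordinates have small degree.
-/

set_option autoImplicit false

namespace Pool.Agent.L5helper32.OA

open Finset Pool.Agent.W856.Corner

lemma totalDegree_X_le {m : ℕ} {R : Type} [CommRing R] (i : Fin m) :
    (MvPolynomial.X i : MvPolynomial (Fin m) R).totalDegree ≤ 1 := by
  refine (MvPolynomial.totalDegree_monomial_le _ _).trans ?_
  rw [Finsupp.sum_single_index rfl]
  exact le_rfl

/-- A Boolean function of `k` coordinates has degree at most `k`. -/
theorem hasDegree_of_dep {p k m : ℕ} (g : V m → Bool) (S : Finset (Fin m)) (hS : S.card ≤ k)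
    (hg : ∀ y y' : V m, (∀ i ∈ S, y i = y' i) → g y = g y') : HasDegree p k g := by
  classical
  let ind : Finset (Fin m) → V m := fun T i => if i ∈ T then 1 else 0
  let P : MvPolynomial (Fin m) (ZMod p) := ∑ T ∈ S.powerset,
    MvPolynomial.C (if g (ind T) = true then 1 else 0) *
      ∏ i ∈ S, (if i ∈ T then MvPolynomial.X i else 1 - MvPolynomial.X i)
  refine ⟨P, ?_, fun y => ?_⟩
  · refine MvPolynomial.totalDegree_finsetSum_le fun T _ => ?_
    refine (MvPolynomial.totalDegree_mul _ _).trans ?_
    rw [MvPolynomial.totalDegree_C, zero_add]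
    refine (MvPolynomial.totalDegree_finsetProd _ _).trans ?_
    refine (Finset.sum_le_card_nsmul _ _ 1 fun i _ => ?_).trans ?_
    · split_ifs
      · exact totalDegree_X_le _
      · refine (MvPolynomial.totalDegree_sub _ _).trans ?_
        rw [MvPolynomial.totalDegree_one]
        exact max_le (Nat.zero_le _) (totalDegree_X_le _)
    · rw [smul_eq_mul, mul_one]
      exact hS
  · let T0 : Finset (Fin m) := S.filter fun i => y i = 1
    have hz : ∀ a : ZMod 2, a ≠ 1 → a = 0 := by decide
    have h01 : (1 : ZMod 2) ≠ 0 := by decide
    have hev : MvPolynomial.eval (fun i => if y i = 1 then (1 : ZMod p) else 0) P =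
        ∑ T ∈ S.powerset, (if g (ind T) = true then (1 : ZMod p) else 0) *
          ∏ i ∈ S, (if i ∈ T then (if y i = 1 then (1 : ZMod p) else 0)
            else 1 - (if y i = 1 then (1 : ZMod p) else 0)) := by
      rw [map_sum]
      refine sum_congr rfl fun T _ => ?_
      rw [map_mul, MvPolynomial.eval_C, map_prod]
      congr 1
      refine prod_congr rfl fun i _ => ?_
      split_ifs <;> simp [*]
    rw [hev, Finset.sum_eq_single T0]
    · have h1 : g (ind T0) = g y := by
        refine hg _ _ fun i hi => ?_
        show (if i ∈ T0 then (1 : ZMod 2) else 0) = y i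
        split_ifs with h
        · exact ((mem_filter.1 h).2).symm
        · by_contra hne
          refine h (mem_filter.2 ⟨hi, ?_⟩)
          by_contra h2
          exact hne (hz _ h2).symm
      have h2 : ∏ i ∈ S, (if i ∈ T0 then (if y i = 1 then (1 : ZMod p) else 0)
            else 1 - (if y i = 1 then (1 : ZMod p) else 0)) = 1 := by
        refine prod_eq_one fun i hi => ?_
        split_ifs with h h' h'
        · rfl
        · exact absurd (mem_filter.1 h).2 h'
        · exact absurd (mem_filter.2 ⟨hi, h'⟩) h
        · exact sub_zero _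
      rw [h2, mul_one, h1]
    · intro T hT hne
      rw [mem_powerset] at hT
      have : ∃ i ∈ S, ¬(i ∈ T ↔ y i = 1) := by
        by_contra hcon
        push Not at hcon
        refine hne ?_
        ext i
        rw [mem_filter]
        constructor
        · intro h
          exact ⟨hT h, (hcon i (hT h)).1 h⟩
        · rintro ⟨h, h'⟩
          exact (hcon i h).2 h'
      obtain ⟨i, hi, hne'⟩ := this
      rw [Finset.prod_eq_zero hi, mul_zero]
      by_cases h1 : i ∈ T
      · rw [if_pos h1, if_neg]
        exact fun h2 => hne' ⟨fun _ => h2, fun _ => h1⟩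
      · rw [if_neg h1, if_pos, sub_self]
        by_contra h2
        exact hne' ⟨fun h => absurd h h1, fun h => absurd h h2⟩
    · intro h
      exact absurd (mem_powerset.2 (filter_subset _ _)) h

end Pool.Agent.L5helper32.OA
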