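import Pool.Agent.L5helper32.OA.Sel
import Pool.Agent.L5helper32.OA.Deg
import Pool.Agent.L5helper32.OA.Defs

/-!
Circuits over input nodes which depend on few blocks of the input.
-/

set_option autoImplicit false

namespace Pool.Agent.L5helper32.OA

open Finset Pool.Agent.W856.Corner Pool.Agent.L5helper12.MF

/-- Circuits for majority whose input nodes depend on few of the parameters. -/
theorem no_circ_aux {p n k d S t h : ℕ} {Free : ((Fin n → Bool) → Bool) → Prop} (hp : p.Prime)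
    (ht : 1 ≤ t) (hS : 4 * S < 2 ^ t) (hh : 16 * (k * ((p - 1) * t) ^ d) ^ 2 ≤ 2 * h + 3)
    (X : Finset (Fin (2 * h + 1)) → Fin n → Bool)
    (hX : ∀ Y, n ≤ 2 * ones (X Y) ↔ h + 1 ≤ Y.card)
    (hfree : ∀ f, Free f → ∃ B : Finset (Fin (2 * h + 1)), B.card ≤ k ∧
      ∀ Y j, j ∉ B → f (X (insert j Y)) = f (X Y))
    (C : Circ p n Free) (hC : C.andOr.card ≤ S) (hd : ∀ i, C.depth i ≤ d) (i : Fin C.N)
    (hi : ∀ x, C.val i x = true ↔ n ≤ 2 * ones x) : False := by
  classical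
  have rule' : ∀ i : Fin C.N,
      (i ∉ C.andOr ∧ HasDegree p k (fun y : V (2 * h + 1) => C.val i (X (sup y)))) ∨
      (i ∉ C.andOr ∧ ∃ j : Fin C.N, j < i ∧ C.depth j ≤ C.depth i ∧
        ∀ y : V (2 * h + 1), C.val i (X (sup y)) = !C.val j (X (sup y))) ∨
      (i ∉ C.andOr ∧ ∃ (J : Finset (Fin C.N)) (r : ZMod p),
        (∀ j ∈ J, j < i ∧ C.depth j < C.depth i) ∧
        ∀ y : V (2 * h + 1), C.val i (X (sup y)) =
          decide (((J.filter fun j => C.val j (X (sup y)) = true).card : ZMod p) = r)) ∨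
      (i ∈ C.andOr ∧ ∃ J : Finset (Fin C.N), (∀ j ∈ J, j < i ∧ C.depth j < C.depth i) ∧
        ((∀ y : V (2 * h + 1), C.val i (X (sup y)) =
            decide (∀ j ∈ J, C.val j (X (sup y)) = true)) ∨
          ∀ y : V (2 * h + 1), C.val i (X (sup y)) =
            decide (∃ j ∈ J, C.val j (X (sup y)) = true))) := by
    intro i
    rcases C.rule i with ⟨h1, h2⟩ | ⟨h1, j, hj, hdj, h2⟩ | ⟨h1, J, r, hJ, h2⟩ | ⟨h1, J, hJ, h2⟩
    · refine Or.inl ⟨h1, ?_⟩
      obtain ⟨B, hB, hBf⟩ := hfree _ h2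
      have key : ∀ (Z W : Finset (Fin (2 * h + 1))), Disjoint Z B →
          C.val i (X (W ∪ Z)) = C.val i (X W) := by
        intro Z W
        induction Z using Finset.induction_on with
        | empty => intro _; rw [union_empty]
        | insert j Z hj ih =>
          intro hdis
          rw [disjoint_insert_left] at hdis
          rw [union_insert, hBf _ _ hdis.1, ih hdis.2]
      have key2 : ∀ Y : Finset (Fin (2 * h + 1)), C.val i (X Y) = C.val i (X (Y ∩ B)) := by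
        intro Y
        have h3 := key (Y \ B) (Y ∩ B) sdiff_disjoint
        rw [← h3]
        congr 2
        ext j
        rw [mem_union, mem_inter, mem_sdiff]
        tauto
      refine hasDegree_of_dep _ B hB fun y y' hy => ?_
      show C.val i (X (sup y)) = C.val i (X (sup y'))
      rw [key2 (sup y), key2 (sup y')]
      congr 2
      ext j
      rw [mem_inter, mem_inter, mem_sup, mem_sup]
      constructor
      · rintro ⟨h3, h4⟩
        exact ⟨by rw [← hy j h4]; exact h3, h4⟩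
      · rintro ⟨h3, h4⟩
        exact ⟨by rw [hy j h4]; exact h3, h4⟩
    · exact Or.inr (Or.inl ⟨h1, j, hj, hdj, fun y => h2 _⟩)
    · exact Or.inr (Or.inr (Or.inl ⟨h1, J, r, hJ, fun y => h2 _⟩))
    · refine Or.inr (Or.inr (Or.inr ⟨h1, J, hJ, ?_⟩))
      rcases h2 with h2 | h2
      · exact Or.inl fun y => h2 _
      · exact Or.inr fun y => h2 _
  let C' : Circuit p (2 * h + 1) k :=
    ⟨C.N, fun i y => C.val i (X (sup y)), C.depth, C.andOr, rule'⟩
  refine no_circuit hp ht hS hh C' hC hd i id (fun l => Or.inr ⟨l, fun y => rfl⟩) fun y => ?_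
  show C.val i (X (sup y)) = true ↔ h < (sup y).card
  rw [hi, hX]
  exact Nat.succ_le_iff

/-- The point whose ones are the set `tun` and the sets `pre b (v b)` for `b < N`. -/
noncomputable def pt {n : ℕ} (N : ℕ) (pre : ℕ → ℕ → Finset (Fin n)) (tun : Finset (Fin n))
    (v : ℕ → ℕ) : Fin n → Bool :=
  open Classical in fun i => decide (i ∈ tun ∨ ∃ b < N, i ∈ pre b (v b))

lemma pt_eq_true {n : ℕ} (N : ℕ) (pre : ℕ → ℕ → Finset (Fin n)) (tun : Finset (Fin n))
    (v : ℕ → ℕ) (i : Fin n) :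
    pt N pre tun v i = true ↔ (i ∈ tun ∨ ∃ b < N, i ∈ pre b (v b)) := by
  unfold pt
  rw [decide_eq_true_iff]

/-- The length of the word in the block `b`. -/
def vv (lo hi : ℕ → ℕ) (Y : Finset ℕ) (b : ℕ) : ℕ := if b ∈ Y then hi b else lo b

lemma ones_pt {n : ℕ} (N : ℕ) (pre : ℕ → ℕ → Finset (Fin n)) (tun : Finset (Fin n))
    (v : ℕ → ℕ) (Bl : ℕ → Finset (Fin n))
    (hBl : ∀ b < N, ∀ b' < N, b ≠ b' → Disjoint (Bl b) (Bl b'))
    (hpre : ∀ b < N, pre b (v b) ⊆ Bl b ∧ (pre b (v b)).card = v b)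
    (htun : ∀ b < N, Disjoint tun (Bl b)) :
    ones (pt N pre tun v) = (∑ b ∈ range N, v b) + tun.card := by
  classical
  have h1 : (univ.filter fun i => pt N pre tun v i = true) =
      (range N).biUnion (fun b => pre b (v b)) ∪ tun := by
    ext i
    rw [mem_filter, pt_eq_true, mem_union, mem_biUnion]
    constructor
    · rintro ⟨_, h | ⟨b, hb, h⟩⟩
      · exact Or.inr h
      · exact Or.inl ⟨b, mem_range.2 hb, h⟩
    · rintro (⟨b, hb, h⟩ | h)
      · exact ⟨mem_univ _, Or.inr ⟨b, mem_range.1 hb, h⟩⟩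
      · exact ⟨mem_univ _, Or.inl h⟩
  unfold ones
  rw [h1, card_union_of_disjoint, card_biUnion]
  · congr 1
    exact sum_congr rfl fun b hb => (hpre b (mem_range.1 hb)).2
  · intro b hb b' hb' hne
    rw [coe_range, Set.mem_Iio] at hb hb'
    exact disjoint_of_subset_left (hpre b hb).1
      (disjoint_of_subset_right (hpre b' hb').1 (hBl b hb b' hb' hne))
  · rw [disjoint_biUnion_left]
    intro b hb
    rw [mem_range] at hb
    exact disjoint_of_subset_left (hpre b hb).1 (htun b hb).symm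

/-- Circuits for majority whose input nodes depend on few blocks. -/
theorem no_circ {p n k d S t h N ℓ : ℕ} {Free : ((Fin n → Bool) → Bool) → Prop} (hp : p.Prime)
    (ht : 1 ≤ t) (hS : 4 * S < 2 ^ t) (hh : 16 * (k * ((p - 1) * t) ^ d) ^ 2 ≤ 2 * h + 3)
    (lo hi : ℕ → ℕ) (hlt : ∀ b < N, lo b < hi b) (hle : ∀ b < N, hi b ≤ ℓ)
    (h2 : 2 * (N * ℓ) ≤ n)
    (hN : (((2 * h + 1 : ℕ) : ℝ) - 1) * ((((2 * h + 1 : ℕ) : ℝ) + 1) * Real.log ℓ + 1) < N)
    (pre : ℕ → ℕ → Finset (Fin n)) (Bl tun : ℕ → Finset (Fin n))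
    (hBl : ∀ b < N, ∀ b' < N, b ≠ b' → Disjoint (Bl b) (Bl b'))
    (hpre : ∀ b < N, ∀ j ≤ ℓ, pre b j ⊆ Bl b ∧ (pre b j).card = j)
    (htun : ∀ T, T + N * ℓ ≤ n → 2 * T ≤ n + 1 → (tun T).card = T ∧
      ∀ b < N, Disjoint (tun T) (Bl b))
    (hfree : ∀ T, T + N * ℓ ≤ n → 2 * T ≤ n + 1 → ∀ f, Free f → ∃ B : Finset ℕ, B.card ≤ k ∧
      ∀ b < N, b ∉ B → ∀ Y : Finset ℕ,
        f (pt N pre (tun T) (vv lo hi (insert b Y))) = f (pt N pre (tun T) (vv lo hi Y)))
    (C : Circ p n Free) (hC : C.andOr.card ≤ S) (hd : ∀ i, C.depth i ≤ d) (i : Fin C.N)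
    (hi' : ∀ x, C.val i x = true ↔ n ≤ 2 * ones x) : False := by
  classical
  obtain ⟨e, D, he, heN, -, hD, hD'⟩ := select N ℓ (2 * h + 1) (by omega) (fun b => hi b - lo b)
    (fun b hb => by have := hlt b hb; show 1 ≤ hi b - lo b; omega)
    (fun b hb => by have := hle b hb; show hi b - lo b ≤ ℓ; omega) hN
  obtain ⟨T, hT1, hT2, hT⟩ := tune n N ℓ (2 * h + 1) (h + 1) D lo hi h2 hlt hle (by omega) e he heN
    hD hD'
  refine no_circ_aux hp ht hS hh (fun Y => pt N pre (tun T) (vv lo hi (Y.image e))) ?_ ?_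
    C hC hd i hi'
  · intro Y
    have h3 := ones_pt N pre (tun T) (vv lo hi (Y.image e)) Bl hBl (fun b hb => hpre b hb _ (by
      unfold vv
      have := hlt b hb
      have := hle b hb
      split_ifs <;> omega)) (htun T hT1 hT2).2
    show n ≤ 2 * ones (pt N pre (tun T) (vv lo hi (Y.image e))) ↔ _
    rw [h3, (htun T hT1 hT2).1]
    exact hT Y
  · intro f hf
    obtain ⟨B, hB, hBf⟩ := hfree T hT1 hT2 f hf
    refine ⟨univ.filter fun j => e j ∈ B, ?_, fun Y j hj => ?_⟩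
    · refine le_trans ?_ hB
      refine card_le_card_of_injOn e (fun j hj => ?_) he.injOn
      rw [mem_coe, mem_filter] at hj
      exact hj.2
    · have hj' : e j ∉ B := fun h3 => hj (mem_filter.2 ⟨mem_univ _, h3⟩)
      show f (pt N pre (tun T) (vv lo hi ((insert j Y).image e))) = _
      rw [image_insert]
      exact hBf _ (heN j) hj' _

end Pool.Agent.L5helper32.OA
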