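import Mathlib

/-!
Products over segments, and blocks of variables which are read in disjoint sets of segments.
-/

set_option autoImplicit false

namespace Pool.Agent.L5helper32.OA

open Finset

section Products

variable {M : Type} [Monoid M]

/-- the product of `g a, …, g (b - 1)` -/
def pr (g : ℕ → M) (a b : ℕ) : M := ((List.range' a (b - a)).map g).prod

lemma pr_split (g : ℕ → M) {a b c : ℕ} (h1 : a ≤ b) (h2 : b ≤ c) :
    pr g a c = pr g a b * pr g b c := by
  unfold pr
  have e : List.range' a (c - a) = List.range' a (b - a) ++ List.range' b (c - b) := by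
    have h3 : a + 1 * (b - a) = b := by omega
    have h4 := List.range'_append (s := a) (m := b - a) (n := c - b) (step := 1)
    rw [h3] at h4
    rw [h4]
    congr 1
    omega
  rw [e, List.map_append, List.prod_append]

lemma pr_congr (g g' : ℕ → M) (a b : ℕ) (h : ∀ t, a ≤ t → t < b → g t = g' t) :
    pr g a b = pr g' a b := by
  unfold pr
  congr 1
  refine List.map_congr_left fun t ht => ?_
  rw [List.mem_range'_1] at ht
  exact h t ht.1 (by omega)

lemma pr_ge (g : ℕ → M) {a b : ℕ} (h : b ≤ a) : pr g a b = 1 := by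
  unfold pr
  rw [Nat.sub_eq_zero_of_le h]
  rfl

lemma pr_one (g : ℕ → M) (a b : ℕ) (h : ∀ t, a ≤ t → t < b → g t = 1) : pr g a b = 1 := by
  rw [pr_congr g (fun _ => 1) a b h]
  unfold pr
  refine List.prod_eq_one fun x hx => ?_
  rw [List.mem_map] at hx
  obtain ⟨_, _, h⟩ := hx
  exact h.symm

/-- The letters may be changed inside some segments if the products over these segments stay the
same. -/
theorem pr_same (g g' : ℕ → M) (c : ℕ) (hc : 0 < c) (σ : Finset ℕ)
    (h1 : ∀ t, t / c ∉ σ → g t = g' t)
    (h2 : ∀ τ ∈ σ, pr g (τ * c) ((τ + 1) * c) = pr g' (τ * c) ((τ + 1) * c))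
    (a : ℕ) (ha : a / c ∉ σ ∨ c ∣ a) :
    ∀ b, (b / c ∉ σ ∨ c ∣ b) → pr g a b = pr g' a b := by
  intro b
  induction b using Nat.strong_induction_on with
  | _ b ih =>
    intro hb
    rcases Nat.lt_or_ge a b with hab | hab
    swap
    · rw [pr_ge g hab, pr_ge g' hab]
    obtain ⟨e, rfl⟩ : ∃ e, b = e + 1 := ⟨b - 1, by omega⟩
    by_cases he : e / c ∈ σ
    · set τ := e / c with hτ
      have h3 : τ * c ≤ e := Nat.div_mul_le_self e c
      have h4 : e < (τ + 1) * c := by
        rw [mul_comm]
        exact Nat.lt_mul_div_succ e hc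
      have hin : ∀ x, τ * c ≤ x → x < (τ + 1) * c → x / c = τ := by
        intro x hx1 hx2
        refine Nat.div_eq_of_lt_le ?_ ?_
        · exact hx1
        · exact hx2
      have hndvd : ∀ x, τ * c < x → x < (τ + 1) * c → ¬ c ∣ x := by
        rintro x hx1 hx2 ⟨y, rfl⟩
        rw [mul_comm] at hx1
        have h5 : τ < y := Nat.lt_of_mul_lt_mul_left hx1
        rw [mul_comm (τ + 1)] at hx2
        have h6 : y < τ + 1 := Nat.lt_of_mul_lt_mul_left hx2
        omega
      have hbe : e + 1 = (τ + 1) * c := by
        rcases Nat.lt_or_ge (e + 1) ((τ + 1) * c) with h5 | h5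
        · exfalso
          rcases hb with hb | hb
          · rw [hin (e + 1) (by omega) h5] at hb
            exact hb he
          · exact hndvd (e + 1) (by omega) h5 hb
        · omega
      have hale : a ≤ τ * c := by
        by_contra hcon
        push Not at hcon
        rcases ha with ha | ha
        · rw [hin a (by omega) (by omega)] at ha
          exact ha he
        · exact hndvd a hcon (by omega) ha
      have h7 : τ * c ≤ (τ + 1) * c := Nat.mul_le_mul_right _ (by omega)
      rw [hbe, pr_split g hale h7, pr_split g' hale h7, h2 τ he,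
        ih (τ * c) (by omega) (Or.inr (Dvd.intro_left τ rfl))]
    · have h3 : a ≤ e := by omega
      rw [pr_split g h3 (Nat.le_succ e), pr_split g' h3 (Nat.le_succ e), ih e (by omega) (Or.inl he)]
      congr 1
      refine pr_congr _ _ _ _ fun t h4 h5 => h1 t ?_
      have : t = e := by omega
      rw [this]
      exact he

end Products

/-- The number of small sets. -/
lemma card_small (m r : ℕ) :
    ((range m).powerset.filter fun S => S.card ≤ r).card ≤ (m + 1) ^ r := by
  classical
  have h1 : ((range m).powerset.filter fun S => S.card ≤ r) ⊆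
      (univ : Finset (Fin r → Fin (m + 1))).image
        (fun f => (univ.image fun i => (f i : ℕ)).filter fun x => x < m) := by
    intro S hS
    rw [mem_filter, mem_powerset] at hS
    obtain ⟨hS1, hS2⟩ := hS
    rw [mem_image]
    have hlen : S.toList.length = S.card := S.length_toList
    refine ⟨fun i => ⟨min (S.toList.getD i m) m, by omega⟩, mem_univ _, ?_⟩
    ext x
    rw [mem_filter, mem_image]
    constructor
    · rintro ⟨⟨i, -, hi⟩, hx⟩
      have hi' : min (S.toList.getD i m) m = x := hi
      rcases Nat.lt_or_ge (i : ℕ) S.toList.length with h2 | h2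
      · rw [List.getD_eq_getElem _ _ h2] at hi'
        have h3 : S.toList[(i : ℕ)] ∈ S := by
          rw [← Finset.mem_toList]
          exact List.getElem_mem h2
        have h4 := mem_range.1 (hS1 h3)
        rw [min_eq_left h4.le] at hi'
        rwa [hi'] at h3
      · rw [List.getD_eq_default _ _ h2, min_self] at hi'
        omega
    · intro hx
      have hxm := mem_range.1 (hS1 hx)
      refine ⟨?_, hxm⟩
      rw [← Finset.mem_toList, List.mem_iff_getElem] at hx
      obtain ⟨i, hi, hix⟩ := hx
      refine ⟨⟨i, by omega⟩, mem_univ _, ?_⟩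
      show min (S.toList.getD i m) m = x
      rw [List.getD_eq_getElem _ _ hi, hix, min_eq_left hxm.le]
  refine (card_le_card h1).trans (card_image_le.trans ?_)
  rw [card_univ, Fintype.card_fun, Fintype.card_fin, Fintype.card_fin]

/-- The variables which are read in one of the segments of `S`. -/
lemma card_touch {n : ℕ} (sig : Fin n → Finset ℕ) (c : ℕ)
    (hc : ∀ τ, (univ.filter fun i => τ ∈ sig i).card ≤ c) (S : Finset ℕ) :
    (univ.filter fun i => ¬ Disjoint (sig i) S).card ≤ S.card * c := by
  classical
  have h1 : (univ.filter fun i => ¬ Disjoint (sig i) S) ⊆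
      S.biUnion fun τ => univ.filter fun i => τ ∈ sig i := by
    intro i hi
    rw [mem_filter, not_disjoint_iff] at hi
    obtain ⟨-, τ, h2, h3⟩ := hi
    exact mem_biUnion.2 ⟨τ, h3, mem_filter.2 ⟨mem_univ _, h2⟩⟩
  refine (card_le_card h1).trans ((card_biUnion_le).trans ?_)
  rw [← smul_eq_mul, ← sum_const]
  exact sum_le_sum fun τ _ => hc τ

/-- the variables which are in a block or read in a segment of a block -/
noncomputable def used {n : ℕ} (sig : Fin n → Finset ℕ) (σ : ℕ → Finset ℕ)
    (Bl : ℕ → Finset (Fin n)) (N : ℕ) : Finset (Fin n) :=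
  open Classical in
  (range N).biUnion fun b => Bl b ∪ univ.filter fun i => ¬ Disjoint (sig i) (σ b)

lemma mem_used {n : ℕ} (sig : Fin n → Finset ℕ) (σ : ℕ → Finset ℕ)
    (Bl : ℕ → Finset (Fin n)) (N : ℕ) (i : Fin n) :
    i ∈ used sig σ Bl N ↔ ∃ b < N, i ∈ Bl b ∨ ¬ Disjoint (sig i) (σ b) := by
  classical
  unfold used
  rw [mem_biUnion]
  simp only [mem_union, mem_filter, mem_univ, true_and, mem_range]

lemma card_used {n : ℕ} (sig : Fin n → Finset ℕ) (c : ℕ)
    (hc : ∀ τ, (univ.filter fun i => τ ∈ sig i).card ≤ c) (σ : ℕ → Finset ℕ)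
    (Bl : ℕ → Finset (Fin n)) (N ℓ r : ℕ) (h : ∀ b < N, (σ b).card ≤ r ∧ (Bl b).card = ℓ) :
    (used sig σ Bl N).card ≤ N * (ℓ + r * c) := by
  classical
  unfold used
  refine card_biUnion_le.trans ?_
  calc ∑ b ∈ range N, (Bl b ∪ univ.filter fun i => ¬ Disjoint (sig i) (σ b)).card
      ≤ ∑ _b ∈ range N, (ℓ + r * c) := by
        refine sum_le_sum fun b hb => ?_
        rw [mem_range] at hb
        refine (card_union_le _ _).trans ?_
        rw [(h b hb).2]
        refine Nat.add_le_add_left ?_ _
        exact (card_touch sig c hc _).trans (Nat.mul_le_mul_right _ (h b hb).1)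
    _ = _ := by rw [sum_const, card_range, smul_eq_mul]

/-- **Blocks of variables which are read in disjoint sets of segments.** -/
theorem greedy {n : ℕ} (G : Finset (Fin n)) (sig : Fin n → Finset ℕ) (m r ℓ c : ℕ) (hℓ : 1 ≤ ℓ)
    (hsig : ∀ i ∈ G, sig i ⊆ range m ∧ (sig i).card ≤ r)
    (hc : ∀ τ, (univ.filter fun i => τ ∈ sig i).card ≤ c) (N : ℕ)
    (hG : N * (ℓ + r * c) + (m + 1) ^ r * ℓ ≤ G.card) :
    ∃ (σ : ℕ → Finset ℕ) (Bl : ℕ → Finset (Fin n)),
      (∀ b < N, (σ b).card ≤ r ∧ (Bl b).card = ℓ ∧ ∀ i ∈ Bl b, sig i = σ b) ∧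
      ∀ b < N, ∀ b' < N, b ≠ b' → Disjoint (σ b) (σ b') ∧ Disjoint (Bl b) (Bl b') := by
  classical
  induction N with
  | zero =>
    exact ⟨fun _ => ∅, fun _ => ∅, fun b hb => absurd hb (Nat.not_lt_zero b),
      fun b hb => absurd hb (Nat.not_lt_zero b)⟩
  | succ N ih =>
    have hG' : N * (ℓ + r * c) + (m + 1) ^ r * ℓ ≤ G.card := by
      refine le_trans (Nat.add_le_add_right (Nat.mul_le_mul_right _ (Nat.le_succ N)) _) hG
    obtain ⟨σ, Bl, h1, h2⟩ := ih hG'
    have h3 := card_used sig c hc σ Bl N ℓ r fun b hb => ⟨(h1 b hb).1, (h1 b hb).2.1⟩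
    have h4 : (m + 1) ^ r * ℓ ≤ (G \ used sig σ Bl N).card := by
      have := le_card_sdiff (used sig σ Bl N) G
      omega
    have hmap : ∀ i ∈ G \ used sig σ Bl N,
        sig i ∈ (range m).powerset.filter fun S => S.card ≤ r := by
      intro i hi
      rw [mem_sdiff] at hi
      rw [mem_filter, mem_powerset]
      exact hsig i hi.1
    have hne : ((range m).powerset.filter fun S => S.card ≤ r).Nonempty :=
      ⟨∅, mem_filter.2 ⟨empty_mem_powerset _, by rw [card_empty]; exact Nat.zero_le _⟩⟩
    obtain ⟨S, -, hS⟩ := exists_le_card_fiber_of_mul_le_card_of_maps_to hmap hne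
      (n := ℓ) ((Nat.mul_le_mul_right _ (card_small m r)).trans h4)
    obtain ⟨B, hB, hBc⟩ := exists_subset_card_eq hS
    have hB' : ∀ i ∈ B, i ∈ G ∧ i ∉ used sig σ Bl N ∧ sig i = S := by
      intro i hi
      have := hB hi
      rw [mem_filter, mem_sdiff] at this
      exact ⟨this.1.1, this.1.2, this.2⟩
    have hnew : ∀ b < N, Disjoint S (σ b) ∧ Disjoint B (Bl b) := by
      intro b hb
      constructor
      · have hBne : B.Nonempty := by
          rw [← card_pos, hBc]
          exact hℓ
        obtain ⟨i, hi⟩ := hBne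
        obtain ⟨-, h5, h6⟩ := hB' i hi
        rw [mem_used] at h5
        push Not at h5
        rw [← h6]
        exact (h5 b hb).2
      · rw [disjoint_left]
        intro i hi h7
        obtain ⟨-, h5, -⟩ := hB' i hi
        rw [mem_used] at h5
        exact h5 ⟨b, hb, Or.inl h7⟩
    refine ⟨fun b => if b = N then S else σ b, fun b => if b = N then B else Bl b, ?_, ?_⟩
    · intro b hb
      by_cases hbN : b = N
      · simp only [hbN, if_true]
        refine ⟨?_, hBc, fun i hi => (hB' i hi).2.2⟩
        have hBne : B.Nonempty := by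
          rw [← card_pos, hBc]
          exact hℓ
        obtain ⟨i, hi⟩ := hBne
        obtain ⟨h5, -, h6⟩ := hB' i hi
        rw [← h6]
        exact (hsig i h5).2
      · simp only [hbN, if_false]
        exact h1 b (by omega)
    · intro b hb b' hb' hne'
      by_cases hbN : b = N
      · have hbN' : b' ≠ N := fun h => hne' (by rw [hbN, h])
        simp only [hbN, if_true, hbN', if_false]
        exact hnew b' (by omega)
      · by_cases hbN' : b' = N
        · simp only [hbN', if_true, hbN, if_false]
          have := hnew b (by omega)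
          exact ⟨this.1.symm, this.2.symm⟩
        · simp only [hbN', hbN, if_false]
          exact h2 b (by omega) b' (by omega) hne'

end Pool.Agent.L5helper32.OA
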