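import Pool.Agent.L5helper32.OA.OneWay
import Pool.Agent.L5helper32.OA.Greedy

/-!
Circuits over the factors of a program over a finite monoid which reads the bits few times.
-/

set_option autoImplicit false

namespace Pool.Agent.L5helper32.OA

open Finset

lemma exists_pre {n : ℕ} (S : Finset (Fin n)) :
    ∃ f : ℕ → Finset (Fin n), ∀ j, f j ⊆ S ∧ (j ≤ S.card → (f j).card = j) := by
  classical
  have h : ∀ j : ℕ, ∃ T : Finset (Fin n), T ⊆ S ∧ (j ≤ S.card → T.card = j) := by
    intro j
    by_cases hj : j ≤ S.card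
    · obtain ⟨T, hT, hTc⟩ := exists_subset_card_eq hj
      exact ⟨T, hT, fun _ => hTc⟩
    · exact ⟨∅, empty_subset _, fun h => absurd h hj⟩
  choose f hf using h
  exact ⟨f, hf⟩

/-- the letters of the word of the program, extended by `1` -/
def lett {n : ℕ} {M : Type} [Monoid M] (P : Program n M) (x : Fin n → Bool) (t : ℕ) : M :=
  if t < P.len then P.letter t (x (P.var t)) else 1

lemma factor_eq {n : ℕ} {M : Type} [Monoid M] (P : Program n M) (x : Fin n → Bool) (a b : ℕ)
    (hb : b ≤ P.len) : P.factor x a b = pr (lett P x) a b := by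
  unfold Program.factor pr
  congr 1
  refine List.map_congr_left fun t ht => ?_
  rw [List.mem_range'_1] at ht
  unfold lett
  rw [if_pos (by omega)]

lemma pr_len {n : ℕ} {M : Type} [Monoid M] (P : Program n M) (x : Fin n → Bool) (a b : ℕ)
    (ha : a ≤ P.len) (hb : P.len ≤ b) : pr (lett P x) a P.len = pr (lett P x) a b := by
  rw [pr_split (lett P x) ha hb, pr_one (lett P x) P.len b, mul_one]
  intro t ht _
  unfold lett
  rw [if_neg (by omega)]

/-- **Circuits over the factors of a program do not compute majority.** -/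
theorem multi {p n k d S t h N r c m : ℕ} {M : Type} [Monoid M] [Fintype M] (P : Program n M)
    (hp : p.Prime) (ht : 1 ≤ t) (hS : 4 * S < 2 ^ t)
    (hh : 16 * (k * ((p - 1) * t) ^ d) ^ 2 ≤ 2 * h + 3) (hn : 2 ≤ n)
    (hG : n ≤ 2 * (univ.filter fun i => P.reads i ≤ r).card) (hc : 0 < c) (hm : P.len ≤ m * c)
    (hn1 : 4 * (N * (Fintype.card M ^ r + r * c)) ≤ n)
    (hn2 : 4 * ((m + 1) ^ r * Fintype.card M ^ r) ≤ n)
    (hN : (((2 * h + 1 : ℕ) : ℝ) - 1) * ((((2 * h + 1 : ℕ) : ℝ) + 1) *
      Real.log ((Fintype.card M ^ r : ℕ) : ℝ) + 1) < N)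
    (C : Circ p n (P.Free k)) (hC : C.andOr.card ≤ S) (hd : ∀ i, C.depth i ≤ d) (i : Fin C.N)
    (hi' : ∀ x, C.val i x = true ↔ n ≤ 2 * ones x) : False := by
  classical
  set ℓ := Fintype.card M ^ r with hℓ
  have hM1 : 1 ≤ Fintype.card M := Fintype.card_pos
  have hℓ1 : 1 ≤ ℓ := Nat.one_le_pow _ _ hM1
  let sig : Fin n → Finset ℕ := fun i =>
    ((range P.len).filter fun t => P.var t = i).image fun t => t / c
  have hmemsig : ∀ i τ, τ ∈ sig i ↔ ∃ t < P.len, P.var t = i ∧ t / c = τ := by
    intro i τ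
    show τ ∈ ((range P.len).filter fun t => P.var t = i).image (fun t => t / c) ↔ _
    rw [mem_image]
    constructor
    · rintro ⟨t, ht, he⟩
      rw [mem_filter, mem_range] at ht
      exact ⟨t, ht.1, ht.2, he⟩
    · rintro ⟨t, h1, h2, h3⟩
      exact ⟨t, mem_filter.2 ⟨mem_range.2 h1, h2⟩, h3⟩
  have hsig : ∀ i ∈ univ.filter (fun i => P.reads i ≤ r), sig i ⊆ range m ∧ (sig i).card ≤ r := by
    intro i hi
    rw [mem_filter] at hi
    refine ⟨fun τ hτ => ?_, card_image_le.trans hi.2⟩
    rw [hmemsig] at hτ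
    obtain ⟨t, h1, -, rfl⟩ := hτ
    rw [mem_range, Nat.div_lt_iff_lt_mul hc]
    omega
  have hcc : ∀ τ, (univ.filter fun i => τ ∈ sig i).card ≤ c := by
    intro τ
    have h1 : (univ.filter fun i => τ ∈ sig i) ⊆ (Ico (τ * c) ((τ + 1) * c)).image P.var := by
      intro i hi
      rw [mem_filter, hmemsig] at hi
      obtain ⟨-, t, -, h2, h3⟩ := hi
      refine mem_image.2 ⟨t, ?_, h2⟩
      rw [mem_Ico, ← h3]
      refine ⟨Nat.div_mul_le_self t c, ?_⟩
      rw [mul_comm]
      exact Nat.lt_mul_div_succ t hc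
    refine (card_le_card h1).trans (card_image_le.trans ?_)
    rw [Nat.card_Ico, Nat.add_mul, one_mul]
    omega
  have hGG : N * (ℓ + r * c) + (m + 1) ^ r * ℓ ≤ (univ.filter fun i => P.reads i ≤ r).card := by
    omega
  obtain ⟨σ, Bl, hB1, hB2⟩ := greedy _ sig m r ℓ c hℓ1 hsig hcc N hGG
  -- the sets of ones in the blocks and outside
  have hpre0 : ∀ b, ∃ f : ℕ → Finset (Fin n), ∀ j, f j ⊆ Bl b ∧ (j ≤ (Bl b).card → (f j).card = j) :=
    fun b => exists_pre (Bl b)
  choose pre hpre using hpre0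
  obtain ⟨tun, htun⟩ := exists_pre (univ \ used sig σ Bl N)
  have hZ : n ≤ (univ \ used sig σ Bl N).card + N * (ℓ + r * c) := by
    have h1 := card_used sig c hcc σ Bl N ℓ r fun b hb => ⟨(hB1 b hb).1, (hB1 b hb).2.1⟩
    have h2 := le_card_sdiff (used sig σ Bl N) univ
    rw [card_univ, Fintype.card_fin] at h2
    omega
  -- the pigeonhole principle
  let w : ℕ → ℕ → Fin n → Bool := fun b j i => decide (i ∈ pre b j)
  have hpig : ∀ b, ∃ j j' : ℕ, b < N → j < j' ∧ j' ≤ ℓ ∧ ∀ τ ∈ σ b,
      pr (lett P (w b j)) (τ * c) ((τ + 1) * c) = pr (lett P (w b j')) (τ * c) ((τ + 1) * c) := by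
    intro b
    by_cases hb : b < N
    swap
    · exact ⟨0, 0, fun h => absurd h hb⟩
    have hcard : Fintype.card (σ b → M) < Fintype.card (Fin (ℓ + 1)) := by
      rw [Fintype.card_fun, Fintype.card_coe, Fintype.card_fin]
      exact Nat.lt_succ_of_le (Nat.pow_le_pow_right hM1 (hB1 b hb).1)
    obtain ⟨j, j', hne, hjj⟩ := Fintype.exists_ne_map_eq_of_card_lt
      (fun (j : Fin (ℓ + 1)) (τ : σ b) =>
        pr (lett P (w b j)) ((τ : ℕ) * c) (((τ : ℕ) + 1) * c)) hcard
    rcases lt_or_gt_of_ne hne with hlt | hlt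
    · exact ⟨j, j', fun _ => ⟨hlt, Nat.lt_succ_iff.1 j'.2, fun τ hτ => congrFun hjj ⟨τ, hτ⟩⟩⟩
    · exact ⟨j', j, fun _ => ⟨hlt, Nat.lt_succ_iff.1 j.2, fun τ hτ =>
        (congrFun hjj ⟨τ, hτ⟩).symm⟩⟩
  choose lo hi hlohi using hpig
  refine no_circ hp ht hS hh lo hi (fun b hb => (hlohi b hb).1) (fun b hb => (hlohi b hb).2.1) ?_
    hN pre Bl tun (fun b hb b' hb' hne => (hB2 b hb b' hb' hne).2) ?_ ?_ ?_ C hC hd i hi'
  · have : N * ℓ ≤ N * (ℓ + r * c) := Nat.mul_le_mul_left _ (Nat.le_add_right _ _)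
    omega
  · intro b hb j hj
    refine ⟨(hpre b j).1, (hpre b j).2 ?_⟩
    rw [(hB1 b hb).2.1]
    exact hj
  · intro T _ hT
    refine ⟨(htun T).2 (by omega), fun b hb => ?_⟩
    rw [disjoint_left]
    intro i h1 h2
    have h3 := (htun T).1 h1
    rw [mem_sdiff, mem_used] at h3
    exact h3.2 ⟨b, hb, Or.inl h2⟩
  · intro T _ _ f hf
    obtain ⟨Tm, hTl, hTm, hTf⟩ := hf
    refine ⟨Tm.biUnion fun t => (range N).filter fun b => t / c ∈ σ b, ?_, ?_⟩
    · refine card_biUnion_le.trans (le_trans ?_ hTm)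
      rw [card_eq_sum_ones]
      refine sum_le_sum fun t _ => ?_
      rw [card_le_one]
      intro b hb b' hb'
      rw [mem_filter, mem_range] at hb hb'
      by_contra hne
      exact disjoint_left.1 (hB2 b hb.1 b' hb'.1 hne).1 hb.2 hb'.2
    · intro b hb hbB Y
      have hTb : ∀ t ∈ Tm, t / c ∉ σ b := fun t htT h1 =>
        hbB (mem_biUnion.2 ⟨t, htT, mem_filter.2 ⟨mem_range.2 hb, h1⟩⟩)
      -- bits read outside of the segments of the block
      have hout : ∀ t < P.len, t / c ∉ σ b →
          pt N pre (tun T) (vv lo hi (insert b Y)) (P.var t) =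
          pt N pre (tun T) (vv lo hi Y) (P.var t) := by
        intro t htl h1
        refine pt_insert pre _ lo hi Y b (Bl b) (hpre b _).1 (hpre b _).1 _ fun h2 => h1 ?_
        rw [← (hB1 b hb).2.2 _ h2, hmemsig]
        exact ⟨t, htl, rfl, rfl⟩
      -- bits read in the segments of the block
      have hin : ∀ (Y : Finset ℕ), ∀ t < P.len, t / c ∈ σ b →
          pt N pre (tun T) (vv lo hi Y) (P.var t) = w b (vv lo hi Y b) (P.var t) := by
        intro Y t htl h1
        have hts : t / c ∈ sig (P.var t) := (hmemsig _ _).2 ⟨t, htl, rfl, rfl⟩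
        rw [Bool.eq_iff_iff, pt_eq_true]
        show _ ↔ decide (_ ∈ pre b _) = true
        rw [decide_eq_true_iff]
        constructor
        · rintro (h2 | ⟨b', hb', h2⟩)
          · exfalso
            have h3 := (htun T).1 h2
            rw [mem_sdiff, mem_used] at h3
            exact h3.2 ⟨b, hb, Or.inr (not_disjoint_iff.2 ⟨_, hts, h1⟩)⟩
          · have h3 := (hpre b' _).1 h2
            have h4 := (hB1 b' hb').2.2 _ h3
            rw [h4] at hts
            have h5 : b' = b := by
              by_contra hne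
              exact disjoint_left.1 (hB2 b' hb' b hb hne).1 hts h1
            rw [h5] at h2
            exact h2
        · intro h2
          exact Or.inr ⟨b, hb, h2⟩
      have hseg : ∀ (Y : Finset ℕ), ∀ τ ∈ σ b,
          pr (lett P (pt N pre (tun T) (vv lo hi Y))) (τ * c) ((τ + 1) * c) =
          pr (lett P (w b (lo b))) (τ * c) ((τ + 1) * c) := by
        intro Y τ hτ
        have h1 : pr (lett P (pt N pre (tun T) (vv lo hi Y))) (τ * c) ((τ + 1) * c) =
            pr (lett P (w b (vv lo hi Y b))) (τ * c) ((τ + 1) * c) := by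
          refine pr_congr _ _ _ _ fun t h2 h3 => ?_
          unfold lett
          split_ifs with htl
          · rw [hin Y t htl]
            have : t / c = τ := Nat.div_eq_of_lt_le h2 h3
            rw [this]
            exact hτ
          · rfl
        rw [h1]
        rcases vv_cases lo hi Y b with h2 | h2
        · rw [h2]
        · rw [h2]
          exact ((hlohi b hb).2.2 τ hτ).symm
      have hpr : ∀ a, (a / c ∉ σ b ∨ c ∣ a) → ∀ e, (e / c ∉ σ b ∨ c ∣ e) →
          pr (lett P (pt N pre (tun T) (vv lo hi (insert b Y)))) a e =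
          pr (lett P (pt N pre (tun T) (vv lo hi Y))) a e := by
        intro a ha
        refine pr_same _ _ c hc (σ b) ?_ ?_ a ha
        · intro t h1
          unfold lett
          split_ifs with htl
          · rw [hout t htl h1]
          · rfl
        · intro τ hτ
          rw [hseg _ τ hτ, hseg _ τ hτ]
      refine hTf _ _ ?_ ?_
      · intro a ha e he
        have hcut : ∀ u ∈ insert 0 (insert P.len Tm), u ≤ P.len ∧
            (u = P.len ∨ (u / c ∉ σ b ∨ c ∣ u)) := by
          intro u hu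
          rw [mem_insert, mem_insert] at hu
          rcases hu with rfl | rfl | hu
          · exact ⟨Nat.zero_le _, Or.inr (Or.inr (dvd_zero c))⟩
          · exact ⟨le_rfl, Or.inl rfl⟩
          · exact ⟨(mem_range.1 (hTl hu)).le, Or.inr (Or.inl (hTb u hu))⟩
        obtain ⟨hal, ha'⟩ := hcut a ha
        obtain ⟨hel, he'⟩ := hcut e he
        rw [factor_eq P _ a e hel, factor_eq P _ a e hel]
        rcases ha' with rfl | ha'
        · rw [pr_ge _ hel, pr_ge _ hel]
        · rcases he' with rfl | he'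
          · rw [pr_len P _ a (m * c) hal hm, pr_len P _ a (m * c) hal hm]
            exact hpr a ha' _ (Or.inr (Dvd.intro_left m rfl))
          · exact hpr a ha' e he'
      · intro u hu
        exact hout u (mem_range.1 (hTl hu)) (hTb u hu)

end Pool.Agent.L5helper32.OA
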