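import Mathlib

/-!
The choice of the numbers.
-/

set_option autoImplicit false

namespace Pool.Agent.L5helper32.OA

/-- The numbers used in the proof. -/
theorem numbers {p k d S : ℕ} {s : ℝ} (hs : 1 ≤ s) (hk : (k : ℝ) ≤ s)
    (hS : (S : ℝ) ≤ 2 ^ s) (hp : 1 ≤ p) {Λ : ℝ} (hΛ : 0.69 ≤ Λ) :
    ∃ t h N : ℕ, 1 ≤ t ∧ 4 * S < 2 ^ t ∧ 16 * (k * ((p - 1) * t) ^ d) ^ 2 ≤ 2 * h + 3 ∧ 1 ≤ N ∧
      (N : ℝ) ≤ 314 * ((4 * p) ^ (4 * d) * s ^ (4 * d + 4)) * Λ ∧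
      ∀ L : ℝ, L ≤ Λ →
        (((2 * h + 1 : ℕ) : ℝ) - 1) * ((((2 * h + 1 : ℕ) : ℝ) + 1) * L + 1) < N := by
  set t : ℕ := ⌊s⌋₊ + 3 with ht
  set R : ℕ := k * ((p - 1) * t) ^ d with hR
  set ρ : ℝ := s * (4 * p * s) ^ d with hρ
  have hp1 : (1 : ℝ) ≤ p := by exact_mod_cast hp
  have hρ1 : 1 ≤ ρ := by
    have h1 : (1 : ℝ) ≤ 4 * p * s := by nlinarith
    have h2 : (1 : ℝ) ≤ (4 * p * s) ^ d := one_le_pow₀ h1
    nlinarith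
  have hfl : ((⌊s⌋₊ : ℕ) : ℝ) ≤ s := Nat.floor_le (by linarith)
  have hRρ : (R : ℝ) ≤ ρ := by
    rw [hR, hρ, Nat.cast_mul, Nat.cast_pow, Nat.cast_mul]
    refine mul_le_mul hk ?_ (by positivity) (by linarith)
    refine pow_le_pow_left₀ (by positivity) ?_ d
    have h1 : ((p - 1 : ℕ) : ℝ) ≤ p := by exact_mod_cast Nat.sub_le p 1
    have h2 : (t : ℝ) ≤ 4 * s := by
      rw [ht]
      push_cast
      linarith
    calc ((p - 1 : ℕ) : ℝ) * t ≤ p * (4 * s) := mul_le_mul h1 h2 (by positivity) (by positivity)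
      _ = 4 * p * s := by ring
  have hρ4 : ρ ^ 4 = (4 * p) ^ (4 * d) * s ^ (4 * d + 4) := by
    rw [hρ, mul_pow, ← pow_mul, mul_pow, mul_comm d 4, pow_add]
    ring
  set N : ℕ := ⌊312 * ρ ^ 4 * Λ⌋₊ + 1 with hN
  have hρ41 : 1 ≤ ρ ^ 4 := one_le_pow₀ hρ1
  have hρ2 : 1 ≤ ρ ^ 2 := one_le_pow₀ hρ1
  have hRρ2 : (R : ℝ) ^ 2 ≤ ρ ^ 2 := pow_le_pow_left₀ (by positivity) hRρ 2
  have hprod : 1 ≤ 1.45 * (ρ ^ 4 * Λ) := by nlinarith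
  have hR16 : 16 * R ^ 2 ≤ 2 * (8 * R ^ 2) + 3 := by omega
  refine ⟨t, 8 * R ^ 2, N, by omega, ?_, hR16, by omega, ?_, ?_⟩
  · have h1 : ((4 * S : ℕ) : ℝ) < ((2 ^ t : ℕ) : ℝ) := by
      push_cast
      have h2 : (2 : ℝ) ^ s < 2 ^ ((⌊s⌋₊ : ℝ) + 1) :=
        Real.rpow_lt_rpow_of_exponent_lt (by norm_num) (Nat.lt_floor_add_one s)
      have h3 : (2 : ℝ) ^ ((⌊s⌋₊ : ℝ) + 1) = 2 ^ (⌊s⌋₊ + 1) := by
        rw [← Real.rpow_natCast]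
        push_cast
        rfl
      have h4 : (2 : ℝ) ^ t = 4 * 2 ^ (⌊s⌋₊ + 1) := by
        rw [ht]
        ring
      rw [h4, ← h3]
      linarith
    exact_mod_cast h1
  · rw [← hρ4]
    have h1 : ((⌊312 * ρ ^ 4 * Λ⌋₊ : ℕ) : ℝ) ≤ 312 * ρ ^ 4 * Λ := Nat.floor_le (by positivity)
    rw [hN]
    push_cast
    nlinarith
  · intro L hL
    have h1 : 312 * ρ ^ 4 * Λ < N := by
      rw [hN]
      push_cast
      exact Nat.lt_floor_add_one _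
    refine lt_of_le_of_lt ?_ h1
    push_cast
    have h2 : (2 * (8 * (R : ℝ) ^ 2) + 1 + 1) * L + 1 ≤ (16 * ρ ^ 2 + 2) * Λ + 1 := by
      have h3 : (2 * (8 * (R : ℝ) ^ 2) + 1 + 1) * L ≤ (2 * (8 * (R : ℝ) ^ 2) + 1 + 1) * Λ :=
        mul_le_mul_of_nonneg_left hL (by positivity)
      have h4 : (2 * (8 * (R : ℝ) ^ 2) + 1 + 1) * Λ ≤ (16 * ρ ^ 2 + 2) * Λ :=
        mul_le_mul_of_nonneg_right (by linarith) (by linarith)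
      linarith
    have h5 : (16 * ρ ^ 2 + 2) * Λ + 1 ≤ 19.45 * (ρ ^ 2 * Λ) := by nlinarith
    have h6 : 0 ≤ (16 * ρ ^ 2 + 2) * Λ + 1 := by positivity
    calc (2 * (8 * (R : ℝ) ^ 2) + 1 - 1) * ((2 * (8 * (R : ℝ) ^ 2) + 1 + 1) * L + 1)
        ≤ (2 * (8 * (R : ℝ) ^ 2) + 1 - 1) * ((16 * ρ ^ 2 + 2) * Λ + 1) :=
          mul_le_mul_of_nonneg_left h2 (by
            have : 0 ≤ 2 * (8 * (R : ℝ) ^ 2) := by positivity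
            linarith)
      _ ≤ (16 * ρ ^ 2) * ((16 * ρ ^ 2 + 2) * Λ + 1) :=
          mul_le_mul_of_nonneg_right (by linarith) h6
      _ ≤ (16 * ρ ^ 2) * (19.45 * (ρ ^ 2 * Λ)) :=
          mul_le_mul_of_nonneg_left h5 (by positivity)
      _ = 311.2 * (ρ ^ 4 * Λ) := by ring
      _ ≤ 312 * ρ ^ 4 * Λ := by nlinarith

end Pool.Agent.L5helper32.OA
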