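import Pool.Agent.L5helper32.OA.Core

/-!
Circuits over the snapshots of an automaton which reads the input in order.
-/

set_option autoImplicit false

namespace Pool.Agent.L5helper32.OA

open Finset

lemma pt_insert {n N : ℕ} (pre : ℕ → ℕ → Finset (Fin n)) (tun : Finset (Fin n)) (lo hi : ℕ → ℕ)
    (Y : Finset ℕ) (b : ℕ) (S : Finset (Fin n)) (hlo : pre b (lo b) ⊆ S) (hhi : pre b (hi b) ⊆ S)
    (i : Fin n) (hi' : i ∉ S) :
    pt N pre tun (vv lo hi (insert b Y)) i = pt N pre tun (vv lo hi Y) i := by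
  classical
  rw [Bool.eq_iff_iff, pt_eq_true, pt_eq_true]
  refine or_congr_right ⟨?_, ?_⟩
  · rintro ⟨b', hb', h⟩
    refine ⟨b', hb', ?_⟩
    rcases eq_or_ne b' b with rfl | hne
    · exfalso
      unfold vv at h
      rw [if_pos (mem_insert_self _ _)] at h
      exact hi' (hhi h)
    · have : vv lo hi (insert b Y) b' = vv lo hi Y b' := by
        unfold vv
        refine if_congr ?_ rfl rfl
        rw [mem_insert]
        exact or_iff_right hne
      rwa [this] at h
  · rintro ⟨b', hb', h⟩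
    refine ⟨b', hb', ?_⟩
    rcases eq_or_ne b' b with rfl | hne
    · exfalso
      unfold vv at h
      split_ifs at h
      · exact hi' (hhi h)
      · exact hi' (hlo h)
    · have : vv lo hi (insert b Y) b' = vv lo hi Y b' := by
        unfold vv
        refine if_congr ?_ rfl rfl
        rw [mem_insert]
        exact or_iff_right hne
      rwa [this]

lemma vv_cases (lo hi : ℕ → ℕ) (Y : Finset ℕ) (b : ℕ) :
    vv lo hi Y b = lo b ∨ vv lo hi Y b = hi b := by
  unfold vv
  split_ifs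
  · exact Or.inr rfl
  · exact Or.inl rfl

section

variable {n : ℕ} {Q : Type} (A : Automaton n Q)

/-- the run of the automaton from the state `q` at the time `a` -/
def run (x : Fin n → Bool) (a : ℕ) (q : Q) : ℕ → Q
  | 0 => q
  | m + 1 => if h : a + m < n then A.step ⟨a + m, h⟩ (x (A.ord ⟨a + m, h⟩)) (run x a q m)
      else run x a q m

lemma state_add (x : Fin n → Bool) (a m : ℕ) :
    A.state x (a + m) = run A x a (A.state x a) m := by
  induction m with
  | zero => rfl
  | succ m ih =>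
    show A.state x (a + m + 1) = _
    rw [Automaton.state, run, ih]

lemma run_congr (x y : Fin n → Bool) (a : ℕ) (q : Q) (m : ℕ)
    (h : ∀ i, a ≤ i → i < a + m → ∀ hn : i < n, x (A.ord ⟨i, hn⟩) = y (A.ord ⟨i, hn⟩)) :
    run A x a q m = run A y a q m := by
  induction m with
  | zero => rfl
  | succ m ih =>
    rw [run, run, ih fun i h1 h2 => h i h1 (by omega)]
    split_ifs with hn
    · rw [h (a + m) (by omega) (by omega) hn]
    · rfl

/-- the time at which the bit `i` is read -/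
def pos (i : Fin n) : ℕ := (A.ord.symm i : ℕ)

lemma pos_ord (i : ℕ) (h : i < n) : pos A (A.ord ⟨i, h⟩) = i := by
  unfold pos
  rw [Equiv.symm_apply_apply]

/-- the bits which are read from the time `a` to the time `b - 1` -/
def seg (a b : ℕ) : Finset (Fin n) := univ.filter fun i => a ≤ pos A i ∧ pos A i < b

lemma mem_seg (a b : ℕ) (i : Fin n) : i ∈ seg A a b ↔ a ≤ pos A i ∧ pos A i < b := by
  unfold seg
  rw [mem_filter]
  exact and_iff_right (mem_univ _)

lemma card_seg (a b : ℕ) (hb : b ≤ n) : (seg A a b).card = b - a := by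
  rw [← Nat.card_Ico]
  refine card_bij (fun i _ => pos A i) ?_ ?_ ?_
  · intro i hi
    rw [mem_seg] at hi
    exact mem_Ico.2 hi
  · intro i _ j _ h
    exact A.ord.symm.injective (Fin.ext h)
  · intro t ht
    rw [mem_Ico] at ht
    refine ⟨A.ord ⟨t, by omega⟩, ?_, pos_ord A _ _⟩
    rw [mem_seg, pos_ord]
    exact ht

/-- **Circuits over the snapshots of an automaton do not compute majority.** -/
theorem oneWay {p k d S t h N : ℕ} [Fintype Q] (hp : p.Prime) (ht : 1 ≤ t) (hS : 4 * S < 2 ^ t)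
    (hh : 16 * (k * ((p - 1) * t) ^ d) ^ 2 ≤ 2 * h + 3)
    (h2 : 2 * (N * Fintype.card Q) ≤ n)
    (hN : (((2 * h + 1 : ℕ) : ℝ) - 1) * ((((2 * h + 1 : ℕ) : ℝ) + 1) *
      Real.log (Fintype.card Q : ℕ) + 1) < N)
    (C : Circ p n (A.Free k)) (hC : C.andOr.card ≤ S) (hd : ∀ i, C.depth i ≤ d) (i : Fin C.N)
    (hi' : ∀ x, C.val i x = true ↔ n ≤ 2 * ones x) : False := by
  classical
  set ℓ := Fintype.card Q with hℓ
  have hℓ1 : 1 ≤ ℓ := Fintype.card_pos_iff.2 ⟨A.start⟩
  let pre : ℕ → ℕ → Finset (Fin n) := fun b j => seg A (b * ℓ) (b * ℓ + j)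
  let w : ℕ → ℕ → Fin n → Bool := fun b j i => decide (i ∈ pre b j)
  have hpig : ∀ b q, ∃ j j' : ℕ, j < j' ∧ j' ≤ ℓ ∧
      run A (w b j) (b * ℓ) q ℓ = run A (w b j') (b * ℓ) q ℓ := by
    intro b q
    have hc : Fintype.card Q < Fintype.card (Fin (ℓ + 1)) := by
      rw [Fintype.card_fin]
      omega
    obtain ⟨j, j', hne, hjj⟩ := Fintype.exists_ne_map_eq_of_card_lt
      (fun j : Fin (ℓ + 1) => run A (w b j) (b * ℓ) q ℓ) hc
    rcases lt_or_gt_of_ne hne with hlt | hlt
    · exact ⟨j, j', hlt, Nat.lt_succ_iff.1 j'.2, hjj⟩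
    · exact ⟨j', j, hlt, Nat.lt_succ_iff.1 j.2, hjj.symm⟩
  choose jl jh hjlt hjle hjeq using hpig
  let qs : ℕ → Q := fun b => Nat.rec A.start (fun b q => run A (w b (jl b q)) (b * ℓ) q ℓ) b
  have hqs0 : qs 0 = A.start := rfl
  have hqs : ∀ b, qs (b + 1) = run A (w b (jl b (qs b))) (b * ℓ) (qs b) ℓ := fun b => rfl
  let lo : ℕ → ℕ := fun b => jl b (qs b)
  let hi : ℕ → ℕ := fun b => jh b (qs b)
  have hlt : ∀ b, lo b < hi b := fun b => hjlt _ _
  have hle : ∀ b, hi b ≤ ℓ := fun b => hjle _ _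
  have hvle : ∀ (Y : Finset ℕ) b, vv lo hi Y b ≤ ℓ := by
    intro Y b
    have h1 := hlt b
    have h2 := hle b
    rcases vv_cases lo hi Y b with h | h <;> rw [h] <;> omega
  have hblk : ∀ b < N, (b + 1) * ℓ ≤ N * ℓ := fun b hb => Nat.mul_le_mul_right _ hb
  -- the bits in a block
  have hbits : ∀ (T : ℕ) (Y : Finset ℕ) (b : ℕ), b < N → ∀ i, b * ℓ ≤ i → i < b * ℓ + ℓ →
      ∀ hn : i < n, pt N pre (seg A (N * ℓ) (N * ℓ + T)) (vv lo hi Y) (A.ord ⟨i, hn⟩) =
        w b (vv lo hi Y b) (A.ord ⟨i, hn⟩) := by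
    intro T Y b hb i h1 h3 hn
    rw [Bool.eq_iff_iff, pt_eq_true]
    show _ ↔ decide (_ ∈ pre b _) = true
    rw [decide_eq_true_iff]
    constructor
    · rintro (h4 | ⟨b', hb', h4⟩)
      · rw [mem_seg, pos_ord] at h4
        have := hblk b hb
        rw [Nat.add_mul, one_mul] at this
        omega
      · have h5 : b' = b := by
          have h6 := h4
          rw [mem_seg, pos_ord] at h6
          have h7 := hvle Y b'
          rcases lt_trichotomy b' b with h8 | h8 | h8
          · have : (b' + 1) * ℓ ≤ b * ℓ := Nat.mul_le_mul_right _ h8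
            rw [Nat.add_mul, one_mul] at this
            omega
          · exact h8
          · have : (b + 1) * ℓ ≤ b' * ℓ := Nat.mul_le_mul_right _ h8
            rw [Nat.add_mul, one_mul] at this
            omega
        rw [h5] at h4
        exact h4
    · intro h4
      exact Or.inr ⟨b, hb, h4⟩
  have hblock : ∀ (T : ℕ) (Y : Finset ℕ) (b : ℕ), b < N →
      run A (pt N pre (seg A (N * ℓ) (N * ℓ + T)) (vv lo hi Y)) (b * ℓ) (qs b) ℓ = qs (b + 1) := by
    intro T Y b hb
    rw [run_congr A _ (w b (vv lo hi Y b)) _ _ _ (hbits T Y b hb), hqs]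
    rcases vv_cases lo hi Y b with h | h
    · rw [h]
    · rw [h]
      exact (hjeq _ _).symm
  have hstate : ∀ (T : ℕ) (Y : Finset ℕ) (b : ℕ), b ≤ N →
      A.state (pt N pre (seg A (N * ℓ) (N * ℓ + T)) (vv lo hi Y)) (b * ℓ) = qs b := by
    intro T Y b
    induction b with
    | zero => intro _; rw [Nat.zero_mul]; rfl
    | succ b ih =>
      intro hb
      rw [Nat.add_mul, one_mul, state_add, ih (by omega), hblock T Y b (by omega)]
  have hsub : ∀ b (j : ℕ), j ≤ ℓ → pre b j ⊆ pre b ℓ := by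
    intro b j hj i hi
    rw [mem_seg] at hi ⊢
    omega
  refine no_circ hp ht hS hh lo hi (fun b _ => hlt b) (fun b _ => hle b) h2 hN pre
    (fun b => pre b ℓ) (fun T => seg A (N * ℓ) (N * ℓ + T)) ?_ ?_ ?_ ?_ C hC hd i hi'
  · intro b _ b' _ hne
    rw [disjoint_left]
    intro i h3 h4
    rw [mem_seg] at h3 h4
    rcases lt_or_gt_of_ne hne with h8 | h8
    · have : (b + 1) * ℓ ≤ b' * ℓ := Nat.mul_le_mul_right _ h8
      rw [Nat.add_mul, one_mul] at this
      omega
    · have : (b' + 1) * ℓ ≤ b * ℓ := Nat.mul_le_mul_right _ h8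
      rw [Nat.add_mul, one_mul] at this
      omega
  · intro b hb j hj
    refine ⟨hsub b j hj, ?_⟩
    show (seg A (b * ℓ) (b * ℓ + j)).card = j
    have := hblk b hb
    rw [Nat.add_mul, one_mul] at this
    rw [card_seg A _ _ (by omega)]
    omega
  · intro T hT _
    refine ⟨?_, ?_⟩
    · rw [card_seg A _ _ (by omega)]
      omega
    · intro b hb
      rw [disjoint_left]
      intro i h3 h4
      rw [mem_seg] at h3 h4
      have := hblk b hb
      rw [Nat.add_mul, one_mul] at this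
      omega
  · intro T _ _ f hf
    obtain ⟨Tm, hTm, hTf⟩ := hf
    refine ⟨Tm.image fun t => t / ℓ, card_image_le.trans hTm, fun b hb hbB Y => hTf _ _ ?_⟩
    intro t htT
    have htb : t / ℓ ≠ b := fun h3 => hbB (mem_image.2 ⟨t, htT, h3⟩)
    have hout : ∀ i, ¬ (b * ℓ ≤ i ∧ i < b * ℓ + ℓ) → ∀ hn : i < n,
        pt N pre (seg A (N * ℓ) (N * ℓ + T)) (vv lo hi (insert b Y)) (A.ord ⟨i, hn⟩) =
        pt N pre (seg A (N * ℓ) (N * ℓ + T)) (vv lo hi Y) (A.ord ⟨i, hn⟩) := by
      intro i h3 hn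
      refine pt_insert pre _ lo hi Y b (pre b ℓ) (hsub b _ ?_) (hsub b _ (hle b)) _ ?_
      · have := hlt b
        have := hle b
        omega
      · intro h4
        rw [mem_seg, pos_ord] at h4
        exact h3 h4
    have htb' : t < b * ℓ ∨ b * ℓ + ℓ ≤ t := by
      by_contra hcon
      push Not at hcon
      refine htb ?_
      rw [Nat.div_eq_iff (by omega)]
      omega
    refine ⟨?_, fun hn => hout t (by omega) hn⟩
    rcases htb' with h3 | h3
    · have h4 := state_add A (pt N pre (seg A (N * ℓ) (N * ℓ + T)) (vv lo hi (insert b Y))) 0 t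
      have h5 := state_add A (pt N pre (seg A (N * ℓ) (N * ℓ + T)) (vv lo hi Y)) 0 t
      rw [Nat.zero_add] at h4 h5
      rw [h4, h5]
      exact run_congr A _ _ _ _ _ fun i _ h6 hn => hout i (by omega) hn
    · obtain ⟨m, rfl⟩ := Nat.exists_eq_add_of_le h3
      have e : b * ℓ + ℓ = (b + 1) * ℓ := by rw [Nat.add_mul, one_mul]
      rw [e] at h3 ⊢
      rw [state_add A _ ((b + 1) * ℓ), state_add A _ ((b + 1) * ℓ), hstate T _ (b + 1) hb,
        hstate T _ (b + 1) hb]
      exact run_congr A _ _ _ _ _ fun i h5 _ hn => hout i (by omega) hn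

end

end Pool.Agent.L5helper32.OA
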