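import Pool.Agent.L5helper32.OA.Multi
import Pool.Agent.L5helper32.OA.Num

/-!
The two lower bounds.
-/

set_option autoImplicit false

namespace Pool.Agent.L5helper32.OA

open Finset

theorem part1 {p n k d : ℕ} {s : ℝ} (hp : p.Prime) (hn : 2 ≤ n) (hs : 1 ≤ s) (hk : (k : ℝ) ≤ s)
    {Q : Type} [Fintype Q] (A : Automaton n Q) (C : Circ p n (A.Free k))
    (hC : C.ComputesMaj d (2 ^ s)) :
    (n : ℝ) < 1000 * Fintype.card Q * ((4 * p) ^ (4 * d) * s ^ (4 * d + 4)) * Real.log n := by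
  by_contra hcon
  push Not at hcon
  obtain ⟨hd, hS, i, hi⟩ := hC
  have hΛ : 0.69 ≤ Real.log n := by
    have h1 : Real.log 2 ≤ Real.log n := Real.log_le_log (by norm_num) (by exact_mod_cast hn)
    have h2 := Real.log_two_gt_d9
    linarith
  obtain ⟨t, h, N, ht, hSt, hh, hN1, hN2, hN3⟩ := numbers (d := d) hs hk hS hp.one_le hΛ
  set W : ℝ := (4 * p) ^ (4 * d) * s ^ (4 * d + 4) with hW
  have hp1 : (1 : ℝ) ≤ p := by exact_mod_cast hp.one_le
  have hW1 : 1 ≤ W := by
    have h1 : (1 : ℝ) ≤ (4 * p) ^ (4 * d) := one_le_pow₀ (by linarith)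
    have h2 : (1 : ℝ) ≤ s ^ (4 * d + 4) := one_le_pow₀ hs
    nlinarith
  have hWΛ : 0.69 ≤ W * Real.log n := by nlinarith
  have hQ : (1 : ℝ) ≤ Fintype.card Q := by
    have : 1 ≤ Fintype.card Q := Fintype.card_pos_iff.2 ⟨A.start⟩
    exact_mod_cast this
  have hQn : (Fintype.card Q : ℝ) ≤ n := by nlinarith
  refine oneWay A hp ht hSt hh ?_ (hN3 _ ?_) C le_rfl hd i hi
  · have h1 : ((2 * (N * Fintype.card Q) : ℕ) : ℝ) ≤ n := by
      push_cast
      have h2 : (N : ℝ) * Fintype.card Q ≤ 314 * W * Real.log n * Fintype.card Q :=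
        mul_le_mul_of_nonneg_right hN2 (by linarith)
      nlinarith
    exact_mod_cast h1
  · exact Real.log_le_log (by linarith) hQn

lemma sum_reads {n : ℕ} {M : Type} (P : Program n M) : ∑ i, P.reads i = P.len := by
  classical
  have h := card_eq_sum_card_fiberwise (f := P.var) (s := range P.len) (t := univ)
    (fun i _ => mem_coe.2 (mem_univ _))
  rw [card_range] at h
  exact h.symm

lemma reads_half {n r : ℕ} {M : Type} (P : Program n M)
    (hP : (∀ i, P.reads i ≤ r) ∨ 2 * P.len ≤ r * n) :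
    n ≤ 2 * (univ.filter fun i => P.reads i ≤ r).card ∧ P.len ≤ r * n := by
  classical
  have hs := sum_reads P
  rcases hP with hP | hP
  · constructor
    · rw [filter_true_of_mem fun i _ => hP i, card_univ, Fintype.card_fin]
      omega
    · rw [← hs]
      calc ∑ i, P.reads i ≤ ∑ _i : Fin n, r := sum_le_sum fun i _ => hP i
        _ = r * n := by rw [sum_const, card_univ, Fintype.card_fin, smul_eq_mul, mul_comm]
  · refine ⟨?_, by omega⟩
    have h1 : (univ.filter fun i => P.reads i ≤ r).card +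
        (univ.filter fun i => ¬ P.reads i ≤ r).card = n := by
      rw [card_filter_add_card_filter_not, card_univ, Fintype.card_fin]
    have h2 : (univ.filter fun i => ¬ P.reads i ≤ r).card * (r + 1) ≤ P.len := by
      rw [← hs]
      calc (univ.filter fun i => ¬ P.reads i ≤ r).card * (r + 1)
          = ∑ _i ∈ univ.filter (fun i => ¬ P.reads i ≤ r), (r + 1) := by
            rw [sum_const, smul_eq_mul]
        _ ≤ ∑ i ∈ univ.filter (fun i => ¬ P.reads i ≤ r), P.reads i := by
            refine sum_le_sum fun i hi => ?_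
            have := (mem_filter.1 hi).2
            omega
        _ ≤ ∑ i, P.reads i := sum_le_sum_of_subset (filter_subset _ _)
    have h3 : 2 * ((univ.filter fun i => ¬ P.reads i ≤ r).card * (r + 1)) ≤ (r + 1) * n := by
      have : r * n ≤ (r + 1) * n := Nat.mul_le_mul_right _ (Nat.le_succ r)
      omega
    have h4 : 2 * (univ.filter fun i => ¬ P.reads i ≤ r).card ≤ n := by
      refine Nat.le_of_mul_le_mul_left ?_ (Nat.succ_pos r)
      calc (r + 1) * (2 * (univ.filter fun i => ¬ P.reads i ≤ r).card)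
          = 2 * ((univ.filter fun i => ¬ P.reads i ≤ r).card * (r + 1)) := by ring
        _ ≤ _ := h3
    omega

theorem part2 {p n k d r : ℕ} {s : ℝ} (hp : p.Prime) (hn : 2 ≤ n) (hs : 1 ≤ s) (hk : (k : ℝ) ≤ s)
    (hr : 1 ≤ r) {M : Type} [Monoid M] [Fintype M] (P : Program n M)
    (hP : (∀ i, P.reads i ≤ r) ∨ 2 * P.len ≤ r * n) (C : Circ p n (P.Free k))
    (hC : C.ComputesMaj d (2 ^ s)) :
    (n : ℝ) < (25000 * r ^ 2 * Fintype.card M * ((4 * p) ^ (4 * d) * s ^ (4 * d + 4)) *
      Real.log n) ^ r := by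
  by_contra hcon
  push Not at hcon
  obtain ⟨hd, hS, i, hi⟩ := hC
  have hΛ : 0.69 ≤ Real.log n := by
    have h1 : Real.log 2 ≤ Real.log n := Real.log_le_log (by norm_num) (by exact_mod_cast hn)
    have h2 := Real.log_two_gt_d9
    linarith
  obtain ⟨t, h, N, ht, hSt, hh, hN1, hN2, hN3⟩ := numbers (d := d) hs hk hS hp.one_le hΛ
  obtain ⟨hG, hlen⟩ := reads_half P hP
  set W : ℝ := (4 * p) ^ (4 * d) * s ^ (4 * d + 4) with hW
  set w : ℕ := Fintype.card M with hw
  have hp1 : (1 : ℝ) ≤ p := by exact_mod_cast hp.one_le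
  have hW1 : 1 ≤ W := by
    have h1 : (1 : ℝ) ≤ (4 * p) ^ (4 * d) := one_le_pow₀ (by linarith)
    have h2 : (1 : ℝ) ≤ s ^ (4 * d + 4) := one_le_pow₀ hs
    nlinarith
  have hWΛ : 0.69 ≤ W * Real.log n := by nlinarith
  have hw1 : 1 ≤ w := Fintype.card_pos
  have hw1' : (1 : ℝ) ≤ w := by exact_mod_cast hw1
  have hr1 : (1 : ℝ) ≤ r := by exact_mod_cast hr
  have hN1' : (1 : ℝ) ≤ N := by exact_mod_cast hN1
  -- the base
  set B : ℝ := 25000 * r ^ 2 * w * W * Real.log n with hB
  have hbase : 79 * (r : ℝ) ^ 2 * w * N ≤ B := by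
    calc 79 * (r : ℝ) ^ 2 * w * N ≤ 79 * (r : ℝ) ^ 2 * w * (314 * W * Real.log n) :=
          mul_le_mul_of_nonneg_left hN2 (by positivity)
      _ = 24806 * ((r : ℝ) ^ 2 * w * W * Real.log n) := by ring
      _ ≤ 25000 * ((r : ℝ) ^ 2 * w * W * Real.log n) := by
          refine mul_le_mul_of_nonneg_right (by norm_num) ?_
          have : 0 ≤ Real.log n := by linarith
          positivity
      _ = B := by rw [hB]; ring
  -- in natural numbers
  have hnat : (79 * r ^ 2 * w * N) ^ r ≤ n := by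
    have h1 : (((79 * r ^ 2 * w * N) ^ r : ℕ) : ℝ) ≤ n := by
      push_cast
      exact (pow_le_pow_left₀ (by positivity) hbase r).trans hcon
    exact_mod_cast h1
  have hmono : ∀ x : ℕ, x ≤ 79 * r ^ 2 * w * N → x ^ r ≤ n := fun x hx =>
    (Nat.pow_le_pow_left hx r).trans hnat
  have hself : ∀ x : ℕ, 1 ≤ x → x ≤ x ^ r := fun x hx => Nat.le_self_pow (by omega) x
  have hrr : 1 ≤ r ^ 2 := Nat.one_le_pow _ _ hr
  have hrr' : r ≤ r ^ 2 := Nat.le_self_pow (by norm_num) r
  -- the length of the segments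
  set q : ℕ := 8 * r * N with hq
  have hq1 : 1 ≤ q := by
    rw [hq]
    exact Nat.mul_pos (by omega) hN1
  have hqn : q ≤ n := by
    refine (hself q hq1).trans (hmono q ?_)
    rw [hq]
    calc 8 * r * N ≤ 79 * r ^ 2 * N := Nat.mul_le_mul_right _ (Nat.mul_le_mul (by norm_num) hrr')
      _ = 79 * r ^ 2 * 1 * N := by ring
      _ ≤ 79 * r ^ 2 * w * N := Nat.mul_le_mul_right _ (Nat.mul_le_mul_left _ hw1)
  set c : ℕ := n / q with hc
  have hc1 : 1 ≤ c := (Nat.one_le_div_iff (by omega)).2 hqn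
  have hcq : c * q ≤ n := Nat.div_mul_le_self n q
  have hcq2 : n < 2 * (c * q) := by
    have h1 : n < q * (c + 1) := Nat.lt_mul_div_succ n (by omega)
    have h2 : q ≤ c * q := by
      calc q = 1 * q := (one_mul q).symm
        _ ≤ c * q := Nat.mul_le_mul_right _ hc1
    have h3 : q * (c + 1) = c * q + q := by ring
    omega
  -- the number of segments
  set m : ℕ := P.len / c + 1 with hm
  have hlenm : P.len ≤ m * c := by
    have h1 : P.len < c * (P.len / c + 1) := Nat.lt_mul_div_succ _ (by omega)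
    rw [hm, mul_comm]
    exact h1.le
  have hm1 : m + 1 ≤ 18 * r ^ 2 * N := by
    have h1 : P.len / c ≤ 16 * r ^ 2 * N := by
      refine Nat.div_le_of_le_mul ?_
      calc P.len ≤ r * n := hlen
        _ ≤ r * (2 * (c * q)) := Nat.mul_le_mul_left _ hcq2.le
        _ = c * (16 * r ^ 2 * N) := by rw [hq]; ring
    have h2 : 1 ≤ r ^ 2 * N := Nat.mul_pos hrr hN1
    have h3 : 16 * r ^ 2 * N = 16 * (r ^ 2 * N) := by ring
    have h4 : 18 * r ^ 2 * N = 18 * (r ^ 2 * N) := by ring
    omega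
  have hℓ : w ^ r ≤ n := hmono w (by
    calc w = 1 * 1 * w * 1 := by ring
      _ ≤ 79 * r ^ 2 * w * N :=
        Nat.mul_le_mul (Nat.mul_le_mul_right _ (Nat.mul_le_mul (by norm_num) hrr)) hN1)
  refine multi P hp ht hSt hh hn hG (by omega) hlenm ?_ ?_ (hN3 _ ?_) C le_rfl hd i hi
  · have h1 : 8 * (N * w ^ r) ≤ n := by
      calc 8 * (N * w ^ r) = (8 * N) * w ^ r := by ring
        _ ≤ (8 * N) ^ r * w ^ r := Nat.mul_le_mul_right _ (hself _ (by omega))
        _ = (8 * N * w) ^ r := by rw [mul_pow (8 * N) w]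
        _ ≤ n := by
          refine hmono _ ?_
          calc 8 * N * w = 8 * 1 * w * N := by ring
            _ ≤ 79 * r ^ 2 * w * N :=
              Nat.mul_le_mul_right _ (Nat.mul_le_mul_right _ (Nat.mul_le_mul (by norm_num) hrr))
    have h2 : 8 * (N * (r * c)) ≤ n := by
      calc 8 * (N * (r * c)) = c * q := by rw [hq]; ring
        _ ≤ n := hcq
    have h3 : 4 * (N * (w ^ r + r * c)) = 4 * (N * w ^ r) + 4 * (N * (r * c)) := by ring
    show 4 * (N * (w ^ r + r * c)) ≤ n
    omega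
  · calc 4 * ((m + 1) ^ r * w ^ r) = 4 * ((m + 1) * w) ^ r := by rw [mul_pow]
      _ ≤ 4 ^ r * ((m + 1) * w) ^ r := Nat.mul_le_mul_right _ (hself 4 (by norm_num))
      _ = (4 * ((m + 1) * w)) ^ r := by rw [mul_pow 4 ((m + 1) * w)]
      _ ≤ n := by
        refine hmono _ ?_
        calc 4 * ((m + 1) * w) ≤ 4 * ((18 * r ^ 2 * N) * w) :=
              Nat.mul_le_mul_left _ (Nat.mul_le_mul_right _ hm1)
          _ = 72 * r ^ 2 * w * N := by ring
          _ ≤ 79 * r ^ 2 * w * N := by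
              refine Nat.mul_le_mul_right _ (Nat.mul_le_mul_right _ (Nat.mul_le_mul_right _ ?_))
              norm_num
  · refine Real.log_le_log ?_ ?_
    · have : 0 < w ^ r := Nat.pos_of_ne_zero (by positivity)
      exact_mod_cast this
    · exact_mod_cast hℓ

end Pool.Agent.L5helper32.OA
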