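import Pool.Agent.L5helper12.MFMaj

/-!
Numbers of almost equal size, and the majority of parameters with almost equal weights.
-/

set_option autoImplicit false

namespace Pool.Agent.L5helper32.OA

open Finset

/-- Among many numbers between `1` and `w` there are `H` numbers which agree up to a factor
`1 + 1 / H`. -/
theorem select (N w H : ℕ) (hH : 1 ≤ H) (Δ : ℕ → ℕ) (h1 : ∀ b < N, 1 ≤ Δ b) (hw : ∀ b < N, Δ b ≤ w)
    (hN : ((H : ℝ) - 1) * ((H + 1) * Real.log w + 1) < N) :
    ∃ (e : Fin H → ℕ) (D : ℕ), Function.Injective e ∧ (∀ j, e j < N) ∧ 1 ≤ D ∧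
      (∀ j, D ≤ Δ (e j)) ∧ ∀ j, H * (Δ (e j) - D) < D := by
  classical
  have hH0 : (0 : ℝ) < H := by exact_mod_cast hH
  set L : ℝ := Real.log (1 + 1 / H) with hL
  have hLpos : 0 < L := Real.log_pos (by
    have : 0 < 1 / (H : ℝ) := by positivity
    linarith)
  have hLlow : 1 / ((H : ℝ) + 1) ≤ L := by
    have h2 := Real.one_sub_inv_le_log_of_pos (x := 1 + 1 / (H : ℝ)) (by positivity)
    refine le_trans (le_of_eq ?_) h2
    field_simp
    ring
  let c : ℕ → ℕ := fun b => ⌊Real.log (Δ b) / L⌋₊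
  have hlog : ∀ b < N, 0 ≤ Real.log (Δ b) / L := fun b hb =>
    div_nonneg (Real.log_natCast_nonneg _) hLpos.le
  set m : ℕ := ⌊(H + 1) * Real.log w⌋₊ with hm
  have hc : ∀ b ∈ range N, c b ∈ range (m + 1) := by
    intro b hb
    rw [mem_range] at hb ⊢
    refine Nat.lt_succ_of_le (Nat.floor_le_floor ?_)
    have h3 : Real.log (Δ b) ≤ Real.log w := by
      apply Real.log_le_log
      · exact_mod_cast h1 b hb
      · exact_mod_cast hw b hb
    have h4 : 0 ≤ Real.log (Δ b) := Real.log_natCast_nonneg _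
    rw [div_le_iff₀ hLpos]
    have h5 : Real.log w * (((H : ℝ) + 1) * L) ≥ Real.log w * 1 := by
      refine mul_le_mul_of_nonneg_left ?_ (h4.trans h3)
      have h6 := mul_le_mul_of_nonneg_left hLlow (show (0 : ℝ) ≤ (H : ℝ) + 1 by positivity)
      have h7 : ((H : ℝ) + 1) * (1 / ((H : ℝ) + 1)) = 1 := by field_simp
      linarith
    calc Real.log (Δ b) ≤ Real.log w * 1 := by rw [mul_one]; exact h3
      _ ≤ _ := h5
      _ = _ := by ring
  have hcard : (range (m + 1)).card * (H - 1) < (range N).card := by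
    rw [card_range, card_range]
    have h3 : (m : ℝ) ≤ (H + 1) * Real.log w :=
      Nat.floor_le (mul_nonneg (by positivity) (Real.log_natCast_nonneg _))
    have h4 : (((m + 1) * (H - 1) : ℕ) : ℝ) < N := by
      rw [Nat.cast_mul, Nat.cast_sub hH, Nat.cast_add, Nat.cast_one]
      refine lt_of_le_of_lt ?_ hN
      rw [mul_comm]
      refine mul_le_mul_of_nonneg_left (by linarith) ?_
      have : (1 : ℝ) ≤ H := by exact_mod_cast hH
      linarith
    exact_mod_cast h4
  obtain ⟨v, -, hv⟩ := exists_lt_card_fiber_of_mul_lt_card_of_maps_to hc hcard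
  set F := (range N).filter fun b => c b = v with hF
  have hFH : H ≤ F.card := by omega
  obtain ⟨F', hF', hF'c⟩ := exists_subset_card_eq hFH
  have hne : F'.Nonempty := by
    rw [← card_pos]; omega
  let e : Fin H → ℕ := fun j => (F'.orderEmbOfFin hF'c j)
  have hemem : ∀ j, e j ∈ F' := fun j => orderEmbOfFin_mem _ _ _
  obtain ⟨b0, hb0, hmin⟩ := exists_min_image F' Δ hne
  have hmemF : ∀ b ∈ F', b < N ∧ c b = v := by
    intro b hb
    have := hF' hb
    rw [hF, mem_filter, mem_range] at this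
    exact this
  refine ⟨e, Δ b0, fun i j hij => (F'.orderEmbOfFin hF'c).injective hij,
    fun j => (hmemF _ (hemem j)).1, h1 _ (hmemF _ hb0).1, fun j => hmin _ (hemem j), fun j => ?_⟩
  obtain ⟨hbN, hbc⟩ := hmemF _ (hemem j)
  obtain ⟨h0N, h0c⟩ := hmemF _ hb0
  have hD1 : 1 ≤ Δ b0 := h1 _ h0N
  have hle := hmin _ (hemem j)
  have h5 : Real.log (Δ (e j)) / L < c (e j) + 1 := Nat.lt_floor_add_one _
  have h6 : (c b0 : ℝ) ≤ Real.log (Δ b0) / L := Nat.floor_le (hlog _ h0N)
  rw [hbc] at h5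
  rw [h0c] at h6
  have h7 : Real.log (Δ (e j)) < Real.log (Δ b0) + L := by
    have h8 : Real.log (Δ (e j)) / L < Real.log (Δ b0) / L + 1 := by linarith
    rw [div_lt_iff₀ hLpos] at h8
    have h9 : (Real.log (Δ b0) / L + 1) * L = Real.log (Δ b0) + L := by
      field_simp
    linarith
  have hpos0 : (0 : ℝ) < Δ b0 := by exact_mod_cast hD1
  have hpos1 : (0 : ℝ) < Δ (e j) := by
    have : (1 : ℕ) ≤ Δ (e j) := hD1.trans hle
    exact_mod_cast this
  rw [hL, ← Real.log_mul hpos0.ne' (by positivity)] at h7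
  have h8 : (Δ (e j) : ℝ) < Δ b0 * (1 + 1 / H) := (Real.log_lt_log_iff hpos1 (by positivity)).1 h7
  have h9 : (H : ℝ) * Δ (e j) < Δ b0 * H + Δ b0 := by
    have h10 := mul_lt_mul_of_pos_left h8 hH0
    have h11 : (H : ℝ) * (Δ b0 * (1 + 1 / H)) = Δ b0 * H + Δ b0 := by field_simp
    linarith
  have h12 : H * Δ (e j) < Δ b0 * H + Δ b0 := by exact_mod_cast h9
  rw [Nat.mul_sub, mul_comm H (Δ b0)]
  have h13 : Δ b0 * H ≤ H * Δ (e j) := by
    rw [mul_comm]
    exact Nat.mul_le_mul_left _ hle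
  omega

/-- Majority of the parameters: `H` parameters change the number of ones by almost equal amounts,
and `T` further ones put the threshold to the right place. -/
theorem tune (n N ℓ H θ D : ℕ) (lo hi : ℕ → ℕ) (hn : 2 * (N * ℓ) ≤ n) (hlt : ∀ b < N, lo b < hi b)
    (hle : ∀ b < N, hi b ≤ ℓ) (hθ : θ ≤ H) (e : Fin H → ℕ) (he : Function.Injective e)
    (heN : ∀ j, e j < N) (hD : ∀ j, D ≤ hi (e j) - lo (e j))
    (hD' : ∀ j, H * (hi (e j) - lo (e j) - D) < D) :
    ∃ T : ℕ, T + N * ℓ ≤ n ∧ 2 * T ≤ n + 1 ∧ ∀ Y : Finset (Fin H),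
      n ≤ 2 * ((∑ b ∈ range N, if b ∈ Y.image e then hi b else lo b) + T) ↔ θ ≤ Y.card := by
  classical
  have key : ∀ Y : Finset (Fin H), (∑ b ∈ range N, if b ∈ Y.image e then hi b else lo b) =
      (∑ b ∈ range N, lo b) + ∑ j ∈ Y, (hi (e j) - lo (e j)) := by
    intro Y
    have h1 : ∀ b ∈ range N, (if b ∈ Y.image e then hi b else lo b) =
        lo b + if b ∈ Y.image e then hi b - lo b else 0 := by
      intro b hb
      rw [mem_range] at hb
      have := hlt b hb
      split_ifs
      · omega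
      · rfl
    rw [sum_congr rfl h1, sum_add_distrib]
    congr 1
    rw [← sum_filter]
    have h2 : (range N).filter (fun b => b ∈ Y.image e) = Y.image e := by
      ext b
      rw [mem_filter, mem_range]
      constructor
      · exact fun h => h.2
      · intro h
        obtain ⟨j, -, rfl⟩ := mem_image.1 h
        exact ⟨heN j, h⟩
    rw [h2, sum_image fun i _ j _ hij => he hij]
  have hup : (∑ b ∈ range N, lo b) + D * H ≤ N * ℓ := by
    have h1 := key univ
    have h2 : (∑ b ∈ range N, if b ∈ (univ : Finset (Fin H)).image e then hi b else lo b) ≤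
        N * ℓ := by
      calc _ ≤ ∑ _b ∈ range N, ℓ := sum_le_sum fun b hb => by
            rw [mem_range] at hb
            have := hlt b hb
            have := hle b hb
            split_ifs <;> omega
        _ = N * ℓ := by rw [sum_const, card_range, smul_eq_mul]
    have h3 : D * H ≤ ∑ j : Fin H, (hi (e j) - lo (e j)) := by
      calc D * H = ∑ _j : Fin H, D := by
            rw [sum_const, card_univ, Fintype.card_fin, smul_eq_mul, mul_comm]
        _ ≤ _ := sum_le_sum fun j _ => hD j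
    omega
  have hDθ : D * θ ≤ D * H := Nat.mul_le_mul_left _ hθ
  refine ⟨(n + 1) / 2 - (∑ b ∈ range N, lo b) - D * θ, by omega, by omega, fun Y => ?_⟩
  rw [key Y]
  have h1 : n ≤ 2 * ((∑ b ∈ range N, lo b) + ∑ j ∈ Y, (hi (e j) - lo (e j)) +
      ((n + 1) / 2 - (∑ b ∈ range N, lo b) - D * θ)) ↔
      D * θ ≤ ∑ j ∈ Y, (hi (e j) - lo (e j)) := by
    omega
  rw [h1]
  constructor
  · intro h
    by_contra hcon
    push Not at hcon
    have h2 : ∑ j ∈ Y, (hi (e j) - lo (e j)) = D * Y.card +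
        ∑ j ∈ Y, (hi (e j) - lo (e j) - D) := by
      rw [mul_comm, ← smul_eq_mul, ← sum_const, ← sum_add_distrib]
      exact sum_congr rfl fun j _ => (Nat.add_sub_cancel' (hD j)).symm
    have h3 : H * ∑ j ∈ Y, (hi (e j) - lo (e j) - D) ≤ Y.card * (D - 1) := by
      rw [mul_sum, ← smul_eq_mul (Y.card), ← sum_const]
      exact sum_le_sum fun j _ => by have := hD' j; omega
    have hY : Y.card ≤ H := by
      have := card_le_univ Y
      rwa [Fintype.card_fin] at this
    have h4 : H * ∑ j ∈ Y, (hi (e j) - lo (e j) - D) ≤ H * (D - 1) :=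
      h3.trans (Nat.mul_le_mul_right _ hY)
    have hHpos : 0 < H := by omega
    have h5 := Nat.le_of_mul_le_mul_left h4 hHpos
    have hD1 : 1 ≤ D := by
      have := hD' ⟨0, hHpos⟩
      omega
    have h6 : D * Y.card + D ≤ D * θ := by
      calc D * Y.card + D = D * (Y.card + 1) := by ring
        _ ≤ D * θ := Nat.mul_le_mul_left _ hcon
    omega
  · intro h
    calc D * θ ≤ D * Y.card := Nat.mul_le_mul_left _ h
      _ = ∑ _j ∈ Y, D := by rw [sum_const, smul_eq_mul, mul_comm]
      _ ≤ _ := sum_le_sum fun j _ => hD j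

end Pool.Agent.L5helper32.OA
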