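import Pool.Agent.L5helper32.OA.Defs

/-!
Automata and programs for majority.
-/

set_option autoImplicit false

namespace Pool.Agent.L5helper32.OA

open Finset

/-- An automaton with `n + 1` states counts the ones. -/
theorem sharp1 (n : ℕ) : ∃ A : Automaton n (Fin (n + 1)),
    A.Free 1 fun x => decide (n ≤ 2 * ones x) := by
  classical
  let A : Automaton n (Fin (n + 1)) := ⟨Equiv.refl _, 0, fun _ b q => if b = true then q + 1 else q⟩
  refine ⟨A, {n}, (card_singleton _).le, fun x y h => ?_⟩
  have key : ∀ (x : Fin n → Bool) (t : ℕ), t ≤ n →
      ((A.state x t : Fin (n + 1)) : ℕ) =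
        (univ.filter fun i : Fin n => (i : ℕ) < t ∧ x i = true).card := by
    intro x t
    induction t with
    | zero =>
      intro _
      rw [filter_false_of_mem fun i _ h => absurd h.1 (Nat.not_lt_zero _)]
      rfl
    | succ t ih =>
      intro ht
      have htn : t < n := ht
      have h1 : A.state x (t + 1) =
          if x ⟨t, htn⟩ = true then A.state x t + 1 else A.state x t := by
        rw [Automaton.state, dif_pos htn]
        rfl
      have ih' := ih (by omega)
      by_cases hx : x ⟨t, htn⟩ = true
      · have h2 : (univ.filter fun i : Fin n => (i : ℕ) < t + 1 ∧ x i = true) =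
            insert ⟨t, htn⟩ (univ.filter fun i : Fin n => (i : ℕ) < t ∧ x i = true) := by
          ext i
          rw [mem_insert, mem_filter, mem_filter, Fin.ext_iff]
          constructor
          · rintro ⟨_, h3, h4⟩
            rcases Nat.lt_succ_iff_lt_or_eq.1 h3 with h5 | h5
            · exact Or.inr ⟨mem_univ _, h5, h4⟩
            · exact Or.inl h5
          · rintro (h3 | ⟨_, h3, h4⟩)
            · have h3' : (i : ℕ) = t := h3
              refine ⟨mem_univ _, by omega, ?_⟩
              have : i = ⟨t, htn⟩ := Fin.ext h3
              rw [this]
              exact hx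
            · exact ⟨mem_univ _, by omega, h4⟩
        rw [h1, if_pos hx, h2, card_insert_of_notMem, ← ih']
        · have h3 : ((A.state x t : Fin (n + 1)) : ℕ) ≤ t := by
            rw [ih']
            have h4 : (univ.filter fun i : Fin n => (i : ℕ) < t ∧ x i = true).card ≤
                (range t).card :=
              card_le_card_of_injOn (fun i => (i : ℕ))
                (fun i hi => by
                  rw [mem_coe, mem_filter] at hi
                  exact mem_coe.2 (mem_range.2 hi.2.1)) (fun i _ j _ h => Fin.ext h)
            rwa [card_range] at h4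
          have h5 : (A.state x t) ≠ Fin.last n := by
            intro h6
            rw [h6, Fin.val_last] at h3
            omega
          exact Fin.val_add_one_of_lt (Fin.lt_last_iff_ne_last.2 h5)
        · rw [mem_filter]
          rintro ⟨_, h3, _⟩
          exact absurd h3 (Nat.lt_irrefl _)
      · have h2 : (univ.filter fun i : Fin n => (i : ℕ) < t + 1 ∧ x i = true) =
            (univ.filter fun i : Fin n => (i : ℕ) < t ∧ x i = true) := by
          refine filter_congr fun i _ => ?_
          constructor
          · rintro ⟨h3, h4⟩
            refine ⟨?_, h4⟩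
            rcases Nat.lt_succ_iff_lt_or_eq.1 h3 with h5 | h5
            · exact h5
            · exfalso
              have : i = ⟨t, htn⟩ := Fin.ext h5
              rw [this] at h4
              exact hx h4
          · rintro ⟨h3, h4⟩
            exact ⟨by omega, h4⟩
        rw [h1, if_neg hx, h2, ih']
  have hones : ∀ x : Fin n → Bool, ((A.state x n : Fin (n + 1)) : ℕ) = ones x := by
    intro x
    rw [key x n le_rfl]
    unfold ones
    congr 1
    refine filter_congr fun i _ => ?_
    exact and_iff_right i.2
  have h1 := (h n (mem_singleton_self n)).1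
  have h2 : ones x = ones y := by rw [← hones x, ← hones y, h1]
  simp only [h2]

/-- the monoid of the vectors with at most one nonzero coordinate, and the vector of ones -/
def vecs {r : ℕ} (q : Fin r → ℕ) :
    Submonoid (∀ i, WithZero (Multiplicative (ZMod (q i)))) where
  carrier := {v | v = 1 ∨ ∃ i, ∀ j, j ≠ i → v j = 0}
  one_mem' := Or.inl rfl
  mul_mem' := by
    rintro v w (rfl | ⟨i, hi⟩) hw
    · rwa [one_mul]
    · refine Or.inr ⟨i, fun j hj => ?_⟩
      rw [Pi.mul_apply, hi j hj, zero_mul]

/-- Programs over small monoids for majority which read every bit `r` times. -/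
theorem sharp2 (n r : ℕ) (hn : 1 ≤ n) (hr : 1 ≤ r) (q : Fin r → ℕ)
    (hq : Pairwise fun i j => (q i).Coprime (q j)) (hprod : n < ∏ i, q i) :
    ∃ (M : Type) (_ : Monoid M) (_ : Fintype M) (P : Program n M),
      Fintype.card M ≤ (∑ i, q i) + 2 ∧ (∀ i, P.reads i = r) ∧
      P.Free (r - 1) fun x => decide (n ≤ 2 * ones x) := by
  classical
  have hq0 : ∀ i, NeZero (q i) := by
    intro i
    refine ⟨fun h => ?_⟩
    rw [prod_eq_zero (mem_univ i) h] at hprod
    exact Nat.not_lt_zero _ hprod
  let M : Type := vecs q
  let sing : ∀ i, ZMod (q i) → M := fun i a =>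
    ⟨Function.update 0 i ((Multiplicative.ofAdd a : Multiplicative (ZMod (q i))) :
      WithZero (Multiplicative (ZMod (q i)))),
      Or.inr ⟨i, fun j hj => Function.update_of_ne hj _ _⟩⟩
  let f : Option (Option (Σ i : Fin r, ZMod (q i))) → M := fun o =>
    match o with
    | none => 1
    | some none => ⟨0, Or.inr ⟨⟨0, hr⟩, fun j _ => rfl⟩⟩
    | some (some ⟨i, a⟩) => sing i a
  have hf : Function.Surjective f := by
    rintro ⟨v, hv⟩
    rcases hv with rfl | ⟨i, hi⟩
    · exact ⟨none, rfl⟩
    · rcases h : v i with _ | a
      · refine ⟨some none, Subtype.ext ?_⟩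
        show (0 : ∀ i, WithZero (Multiplicative (ZMod (q i)))) = v
        funext j
        by_cases hj : j = i
        · subst hj
          exact h.symm
        · exact (hi j hj).symm
      · refine ⟨some (some ⟨i, Multiplicative.toAdd a⟩), Subtype.ext ?_⟩
        show Function.update (0 : ∀ i, WithZero (Multiplicative (ZMod (q i)))) i _ = v
        funext j
        by_cases hj : j = i
        · subst hj
          rw [Function.update_self]
          exact h.symm
        · rw [Function.update_of_ne hj]
          exact (hi j hj).symm
  have : Fintype M := Fintype.ofSurjective f hf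
  have hcard : Fintype.card M ≤ (∑ i, q i) + 2 := by
    refine (Fintype.card_le_of_surjective f hf).trans ?_
    rw [Fintype.card_option, Fintype.card_option, Fintype.card_sigma]
    simp only [ZMod.card]
    exact le_rfl
  let P : Program n M :=
    { len := r * n
      var := fun t => ⟨t % n, Nat.mod_lt _ hn⟩
      letter := fun t b => if h : t / n < r then sing ⟨t / n, h⟩ (if b = true then 1 else 0)
        else 1 }
  -- the coordinates of the factors
  have hcoord : ∀ (x : Fin n → Bool) (i : Fin r),
      (P.factor x ((i : ℕ) * n) (((i : ℕ) + 1) * n) : M).1 i =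
        ((Multiplicative.ofAdd ((ones x : ℕ) : ZMod (q i)) : Multiplicative (ZMod (q i))) :
          WithZero (Multiplicative (ZMod (q i)))) := by
    intro x i
    have hlen : ((i : ℕ) + 1) * n - (i : ℕ) * n = n := by
      rw [Nat.add_mul, one_mul]
      omega
    have h1 : ∀ m : ℕ, m ≤ n →
        (((List.range' ((i : ℕ) * n) m).map fun t => P.letter t (x (P.var t))).prod : M).1 i =
        ((Multiplicative.ofAdd (((univ.filter fun j : Fin n => (j : ℕ) < m ∧ x j = true).card : ℕ) :
          ZMod (q i)) : Multiplicative (ZMod (q i))) :
          WithZero (Multiplicative (ZMod (q i)))) := by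
      intro m
      induction m with
      | zero =>
        intro _
        rw [filter_false_of_mem fun i _ h => absurd h.1 (Nat.not_lt_zero _), card_empty,
          Nat.cast_zero]
        rfl
      | succ m ih =>
        intro hm
        have hmn : m < n := hm
        rw [List.range'_1_concat, List.map_append, List.prod_append, List.map_singleton,
          List.prod_singleton]
        have h2 : ∀ u v : M, (u * v).1 i = u.1 i * v.1 i := fun u v => rfl
        rw [h2, ih (by omega)]
        have h3 : ((i : ℕ) * n + m) / n = i := by
          rw [mul_comm, Nat.mul_add_div hn, Nat.div_eq_of_lt hmn, add_zero]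
        have h4 : ((i : ℕ) * n + m) % n = m := by
          rw [mul_comm, Nat.mul_add_mod, Nat.mod_eq_of_lt hmn]
        have h5 : P.var ((i : ℕ) * n + m) = ⟨m, hmn⟩ := Fin.ext h4
        have h6 : ∀ (t : ℕ) (b : Bool), t / n = i →
            (P.letter t b).1 i = ((Multiplicative.ofAdd (if b = true then (1 : ZMod (q i)) else 0) :
              Multiplicative (ZMod (q i))) : WithZero (Multiplicative (ZMod (q i)))) := by
          intro t b ht
          have h7 : P.letter t b = sing i (if b = true then 1 else 0) := by
            show (if h : t / n < r then sing ⟨t / n, h⟩ (if b = true then 1 else 0) else 1) = _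
            have h8 : t / n < r := by rw [ht]; exact i.2
            rw [dif_pos h8]
            have h9 : (⟨t / n, h8⟩ : Fin r) = i := Fin.ext ht
            rw [h9]
          rw [h7]
          show Function.update (0 : ∀ i, WithZero (Multiplicative (ZMod (q i)))) i _ i = _
          rw [Function.update_self]
        rw [h6 _ _ h3, h5, ← WithZero.coe_mul, ← ofAdd_add]
        congr 2
        by_cases hx : x ⟨m, hmn⟩ = true
        · have h7 : (univ.filter fun j : Fin n => (j : ℕ) < m + 1 ∧ x j = true) =
              insert ⟨m, hmn⟩ (univ.filter fun j : Fin n => (j : ℕ) < m ∧ x j = true) := by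
            ext j
            rw [mem_insert, mem_filter, mem_filter, Fin.ext_iff]
            constructor
            · rintro ⟨_, h3, h4⟩
              rcases Nat.lt_succ_iff_lt_or_eq.1 h3 with h5 | h5
              · exact Or.inr ⟨mem_univ _, h5, h4⟩
              · exact Or.inl h5
            · rintro (h3 | ⟨_, h3, h4⟩)
              · have h3' : (j : ℕ) = m := h3
                refine ⟨mem_univ _, by omega, ?_⟩
                have : j = ⟨m, hmn⟩ := Fin.ext h3
                rw [this]
                exact hx
              · exact ⟨mem_univ _, by omega, h4⟩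
          rw [if_pos hx, h7, card_insert_of_notMem, Nat.cast_add, Nat.cast_one]
          rw [mem_filter]
          rintro ⟨_, h3, _⟩
          exact absurd h3 (Nat.lt_irrefl _)
        · have h7 : (univ.filter fun j : Fin n => (j : ℕ) < m + 1 ∧ x j = true) =
              (univ.filter fun j : Fin n => (j : ℕ) < m ∧ x j = true) := by
            refine filter_congr fun j _ => ?_
            constructor
            · rintro ⟨h3, h4⟩
              refine ⟨?_, h4⟩
              rcases Nat.lt_succ_iff_lt_or_eq.1 h3 with h5 | h5
              · exact h5
              · exfalso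
                have : j = ⟨m, hmn⟩ := Fin.ext h5
                rw [this] at h4
                exact hx h4
            · rintro ⟨h3, h4⟩
              exact ⟨by omega, h4⟩
          rw [if_neg hx, h7, add_zero]
    unfold Program.factor
    rw [hlen, h1 n le_rfl]
    congr 3
    unfold ones
    congr 1
    refine filter_congr fun j _ => ?_
    exact and_iff_right j.2
  refine ⟨M, inferInstance, inferInstance, P, hcard, ?_, ?_⟩
  · intro i
    show ((range (r * n)).filter fun t => (⟨t % n, Nat.mod_lt _ hn⟩ : Fin n) = i).card = r
    have h1 : ((range (r * n)).filter fun t => (⟨t % n, Nat.mod_lt _ hn⟩ : Fin n) = i) =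
        (range r).image fun a => a * n + (i : ℕ) := by
      ext t
      rw [mem_filter, mem_range, mem_image]
      constructor
      · rintro ⟨h2, h3⟩
        have h4 : t % n = i := congrArg Fin.val h3
        refine ⟨t / n, mem_range.2 ?_, ?_⟩
        · rw [Nat.div_lt_iff_lt_mul hn]
          exact h2
        · rw [← h4]
          exact Nat.div_add_mod' t n
      · rintro ⟨a, ha, rfl⟩
        rw [mem_range] at ha
        refine ⟨?_, Fin.ext ?_⟩
        · calc a * n + (i : ℕ) < a * n + n := Nat.add_lt_add_left i.2 _
            _ = (a + 1) * n := by ring
            _ ≤ r * n := Nat.mul_le_mul_right _ ha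
        · show (a * n + (i : ℕ)) % n = i
          rw [mul_comm, Nat.mul_add_mod, Nat.mod_eq_of_lt i.2]
    rw [h1, card_image_of_injective, card_range]
    intro a b hab
    have : a * n = b * n := Nat.add_right_cancel hab
    exact Nat.eq_of_mul_eq_mul_right hn this
  · refine ⟨(Ico 1 r).image fun a => a * n, ?_, ?_, ?_⟩
    · intro t ht
      rw [mem_image] at ht
      obtain ⟨a, ha, rfl⟩ := ht
      rw [mem_Ico] at ha
      exact mem_range.2 (Nat.mul_lt_mul_of_pos_right ha.2 hn)
    · refine card_image_le.trans ?_
      rw [Nat.card_Ico]
    · intro x y h _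
      have hcut : ∀ a ≤ r, a * n ∈ insert 0 (insert P.len ((Ico 1 r).image fun a => a * n)) := by
        intro a ha
        rw [mem_insert, mem_insert, mem_image]
        rcases Nat.eq_zero_or_pos a with h1 | h1
        · left
          rw [h1, zero_mul]
        · right
          rcases Nat.lt_or_ge a r with h2 | h2
          · right
            exact ⟨a, mem_Ico.2 ⟨h1, h2⟩, rfl⟩
          · left
            have : a = r := le_antisymm ha h2
            rw [this]
      have h1 : ∀ i : Fin r, ((ones x : ℕ) : ZMod (q i)) = ((ones y : ℕ) : ZMod (q i)) := by
        intro i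
        have h2 := h _ (hcut i i.2.le) _ (hcut ((i : ℕ) + 1) i.2)
        have h3 := hcoord x i
        rw [h2, hcoord y i, WithZero.coe_inj] at h3
        exact (Multiplicative.ofAdd.injective h3).symm
      have h2 : ones x = ones y := by
        have h3 : ones x ≡ ones y [MOD ∏ i, q i] := by
          rw [Nat.modEq_iff_dvd, Nat.cast_prod]
          refine Finset.prod_dvd_of_coprime ?_ ?_
          · intro i _ j _ hij
            exact Nat.isCoprime_iff_coprime.2 (hq hij)
          · intro i _
            rw [← Nat.modEq_iff_dvd]
            exact (ZMod.natCast_eq_natCast_iff _ _ _).1 (h1 i)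
        have h4 : ∀ x : Fin n → Bool, ones x < ∏ i, q i := by
          intro x
          refine lt_of_le_of_lt ?_ hprod
          unfold ones
          refine (card_le_univ _).trans ?_
          rw [Fintype.card_fin]
        exact Nat.ModEq.eq_of_lt_of_lt h3 (h4 x) (h4 y)
      simp only [h2]

end Pool.Agent.L5helper32.OA
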